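import Mathlib

/-! Definitions: semigroup varieties, the varieties `RS n`, covers, matrix semigroups. -/

namespace Pool.Agent.MP_634f99_al.H46

/-- The semigroup `S` satisfies the identity `e.1 = e.2` between two nonempty words. -/
def Sat (S : Semigrp.{0}) (e : FreeSemigroup ℕ × FreeSemigroup ℕ) : Prop :=
  ∀ f : ℕ → S, FreeSemigroup.lift f e.1 = FreeSemigroup.lift f e.2

/-- The class of semigroups defined by a set of identities. -/
def Mod (B : Set (FreeSemigroup ℕ × FreeSemigroup ℕ)) : Set Semigrp.{0} :=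
  {S | ∀ e ∈ B, Sat S e}

/-- A variety is a class of semigroups defined by identities. -/
def IsVariety (V : Set Semigrp.{0}) : Prop := ∃ B, V = Mod B

/-- The variety generated by a class: all semigroups satisfying every identity of the class. -/
def gen (C : Set Semigrp.{0}) : Set Semigrp.{0} := Mod {e | ∀ S ∈ C, Sat S e}

/-- `S` has a zero `z`, some product is not `z`, and the only ideals are `{z}` and `S`. -/
def ZeroSimple (S : Semigrp.{0}) : Prop :=
  ∃ z : S, (∀ x : S, z * x = z ∧ x * z = z) ∧ (∃ x y : S, x * y ≠ z) ∧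
    ∀ I : Set S, I.Nonempty → (∀ x ∈ I, ∀ s : S, s * x ∈ I ∧ x * s ∈ I) →
      I = {z} ∨ I = Set.univ

/-- `S` satisfies the identity `x ^ 2 = x ^ (n + 2)`. -/
def Periodic (n : ℕ) (S : Semigrp.{0}) : Prop :=
  ∀ x : S, x * x = (fun y => y * x)^[n + 1] x

/-- The variety generated by all 0-simple semigroups satisfying `x ^ 2 = x ^ (n + 2)`. -/
def RS (n : ℕ) : Set Semigrp.{0} := gen {S | ZeroSimple S ∧ Periodic n S}

/-- `V` is a cover of `A` in the family `L` of classes, ordered by inclusion. -/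
def IsCover (L : Set (Set Semigrp.{0})) (A V : Set Semigrp.{0}) : Prop :=
  V ∈ L ∧ A ⊂ V ∧ ¬ ∃ W ∈ L, A ⊂ W ∧ W ⊂ V

/-- The join of `RS n` with the variety generated by one semigroup `T`. -/
def joinRS (n : ℕ) (T : Semigrp.{0}) : Set Semigrp.{0} := gen (RS n ∪ {T})

/-- The multiplicative semigroup generated by a set of 4 by 4 integer matrices. -/
def matSg (G : Set (Matrix (Fin 4) (Fin 4) ℤ)) : Semigrp.{0} :=
  Semigrp.of (Subsemigroup.closure G)

/-- The matrix unit with a single entry 1 in row `i` and column `j`. -/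
def E (i j : Fin 4) : Matrix (Fin 4) (Fin 4) ℤ := Matrix.single i j 1

/-- The nilpotent semigroup `{x, x ^ 2, 0}`. -/
def N3 : Semigrp.{0} := matSg {E 0 1 + E 1 2}

/-- The nilpotent semigroup `{x, y, xy, yx, xyx, 0}`. -/
def Dxyx : Semigrp.{0} := matSg {E 0 1 + E 2 3, E 1 2}

/-- The ten-element semigroup generated by three matrices `a, b, c`. -/
def Wl : Semigrp.{0} := matSg {E 0 2 + E 1 3, E 2 0 + E 2 1, E 3 0 + E 3 1}

/-- The dual of `Wl`, generated by the transposed matrices. -/
def Wr : Semigrp.{0} := matSg {E 2 0 + E 3 1, E 0 2 + E 1 2, E 0 3 + E 1 3}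

/-- The cyclic group of order `m`. -/
def Cyc (m : ℕ) : Semigrp.{0} := Semigrp.of (Multiplicative (ZMod m))

end Pool.Agent.MP_634f99_al.H46
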