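import Mathlib
import Pool.Agent.MP_634f99_al.H46.Defs

/-! Powers in semigroups, stability lemmas, and identities of 0-simple semigroups. -/

namespace Pool.Agent.MP_634f99_al.H46

/-- `sp x k` is `x ^ (k + 1)`. -/
def sp {S : Type*} [Mul S] (x : S) (k : ℕ) : S := (fun y => y * x)^[k] x

section
variable {S : Type*} [Semigroup S]

theorem sp_zero (x : S) : sp x 0 = x := rfl

theorem sp_succ (x : S) (k : ℕ) : sp x (k + 1) = sp x k * x := by
  simp only [sp, Function.iterate_succ_apply']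

theorem coe_sp (x : S) (k : ℕ) : ((sp x k : S) : WithOne S) = (x : WithOne S) ^ (k + 1) := by
  induction k with
  | zero => simp [sp_zero]
  | succ k ih => rw [sp_succ, WithOne.coe_mul, ih, ← pow_succ]

theorem sp_succ' (x : S) (k : ℕ) : sp x (k + 1) = x * sp x k := by
  apply WithOne.coe_injective
  simp only [WithOne.coe_mul, coe_sp]
  rw [← pow_succ']

theorem map_sp {T : Type*} [Semigroup T] (φ : S →ₙ* T) (x : S) (k : ℕ) :
    φ (sp x k) = sp (φ x) k := by
  induction k with
  | zero => rfl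
  | succ k ih => rw [sp_succ, sp_succ, map_mul, ih]

theorem op_sp (x : S) (k : ℕ) : MulOpposite.op (sp x k) = sp (MulOpposite.op x) k := by
  induction k with
  | zero => rfl
  | succ k ih => rw [sp_succ, sp_succ', MulOpposite.op_mul, ih]

theorem unop_sp (x : Sᵐᵒᵖ) (k : ℕ) : MulOpposite.unop (sp x k) = sp (MulOpposite.unop x) k := by
  induction k with
  | zero => rfl
  | succ k ih => rw [sp_succ, sp_succ', MulOpposite.unop_mul, ih]

theorem sp_monoid {M : Type*} [Monoid M] (x : M) (k : ℕ) : sp x k = x ^ (k + 1) := by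
  induction k with
  | zero => simp [sp_zero]
  | succ k ih => rw [sp_succ, ih, ← pow_succ]

end

/-- The identity `x ^ 2 = x ^ (n + 2)`. -/
def P1 (n : ℕ) (S : Type*) [Semigroup S] : Prop := ∀ x : S, x * x = sp x (n + 1)

/-- The identity `x y x = (x y) ^ (n + 1) x`. -/
def P2 (n : ℕ) (S : Type*) [Semigroup S] : Prop := ∀ x y : S, x * y * x = sp (x * y) n * x

/-- The left condition. -/
def PL (S : Type*) [Semigroup S] : Prop :=
  ∀ s t t' : S, ∃ p ∈ Subsemigroup.closure ({s * t, s * t'} : Set S),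
    ∃ q ∈ Subsemigroup.closure ({s * t, s * t'} : Set S), s * t * p * s = s * t' * q * s

section
variable {S : Type*} [Semigroup S] {n : ℕ}

theorem P1.withOne (h : P1 n S) (x : WithOne S) : x ^ 2 = x ^ (n + 2) := by
  induction x using WithOne.recOneCoe with
  | one => simp
  | coe x =>
    have := congrArg (fun s : S => (s : WithOne S)) (h x)
    simp only [WithOne.coe_mul, coe_sp] at this
    rw [sq, this]

theorem P2.withOne (h1 : P1 n S) (h : P2 n S) (x : S) (y : WithOne S) :
    (x : WithOne S) * y * x = ((x : WithOne S) * y) ^ (n + 1) * x := by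
  induction y using WithOne.recOneCoe with
  | one =>
    simp only [mul_one]
    rw [← sq, ← pow_succ]
    exact h1.withOne x
  | coe y =>
    have := congrArg (fun s : S => (s : WithOne S)) (h x y)
    simpa only [WithOne.coe_mul, coe_sp] using this

theorem P1.op (h : P1 n S) : P1 n Sᵐᵒᵖ := by
  intro x
  apply MulOpposite.unop_injective
  rw [unop_sp, MulOpposite.unop_mul]
  exact h _

theorem P2.op (h : P2 n S) : P2 n Sᵐᵒᵖ := by
  intro x y
  apply MulOpposite.unop_injective
  simp only [unop_sp, MulOpposite.unop_mul]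
  apply WithOne.coe_injective
  have := congrArg (fun s : S => (s : WithOne S)) (h x.unop y.unop)
  simp only [WithOne.coe_mul, coe_sp] at this ⊢
  rw [← mul_assoc, this, mul_pow_mul]

end

section Monoid
variable {M : Type*} [Monoid M] {n : ℕ}

theorem pow_period (h : ∀ x : M, x ^ 2 = x ^ (n + 2)) (x : M) (k j : ℕ) (hk : 2 ≤ k) :
    x ^ (k + j * n) = x ^ k := by
  induction j with
  | zero => simp
  | succ j ih =>
    obtain ⟨m, rfl⟩ := Nat.exists_eq_add_of_le hk
    have e : 2 + m + (j + 1) * n = (n + 2) + (m + j * n) := by ring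
    rw [e, pow_add, ← h, ← pow_add, ← ih]
    congr 1
    ring

theorem pow_idem (hn : 1 ≤ n) (h : ∀ x : M, x ^ 2 = x ^ (n + 2)) (x : M) :
    x ^ (2 * n) * x ^ (2 * n) = x ^ (2 * n) := by
  rw [← pow_add, pow_period h x (2 * n) 2 (by omega)]

theorem iter_eq {a p q : M} (h : a = p * a * q) (k : ℕ) : a = p ^ k * a * q ^ k := by
  induction k with
  | zero => simp
  | succ k ih =>
    calc a = p * a * q := h
      _ = p * (p ^ k * a * q ^ k) * q := by rw [← ih]
      _ = p ^ (k + 1) * a * q ^ (k + 1) := by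
        rw [pow_succ' p, pow_succ q]; simp only [mul_assoc]

theorem fix_right (hn : 1 ≤ n) (h : ∀ x : M, x ^ 2 = x ^ (n + 2)) {a p q : M}
    (e : a = p * a * q) : a * q ^ (2 * n) = a := by
  have h1 := iter_eq e (2 * n)
  calc a * q ^ (2 * n) = (p ^ (2 * n) * a * q ^ (2 * n)) * q ^ (2 * n) := by rw [← h1]
    _ = p ^ (2 * n) * a * (q ^ (2 * n) * q ^ (2 * n)) := by simp only [mul_assoc]
    _ = a := by rw [pow_idem hn h, ← h1]

theorem fix_left (hn : 1 ≤ n) (h : ∀ x : M, x ^ 2 = x ^ (n + 2)) {a p q : M}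
    (e : a = p * a * q) : p ^ (2 * n) * a = a := by
  have h1 := iter_eq e (2 * n)
  calc p ^ (2 * n) * a = p ^ (2 * n) * (p ^ (2 * n) * a * q ^ (2 * n)) := by rw [← h1]
    _ = (p ^ (2 * n) * p ^ (2 * n)) * a * q ^ (2 * n) := by simp only [mul_assoc]
    _ = a := by rw [pow_idem hn h, ← h1]

/-- The two-sided divisibility preorder. -/
def leJ (x y : M) : Prop := ∃ p q : M, x = p * y * q

theorem leJ_refl (x : M) : leJ x x := ⟨1, 1, by simp⟩

theorem leJ_trans {x y z : M} (h1 : leJ x y) (h2 : leJ y z) : leJ x z := by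
  obtain ⟨p, q, rfl⟩ := h1
  obtain ⟨p', q', rfl⟩ := h2
  exact ⟨p * p', q' * q, by simp only [mul_assoc]⟩

theorem leJ_mul_left (x y : M) : leJ (x * y) y := ⟨x, 1, by simp⟩

theorem leJ_mul_right (x y : M) : leJ (x * y) x := ⟨1, y, by simp⟩

theorem leJ_mid (p y q : M) : leJ (p * y * q) y := ⟨p, q, rfl⟩

theorem stab_right (hn : 1 ≤ n) (h : ∀ x : M, x ^ 2 = x ^ (n + 2)) {a b : M}
    (e : leJ a (a * b)) : ∃ r : M, a = a * b * r := by
  obtain ⟨p, q, e⟩ := e
  have e' : a = p * a * (b * q) := by rw [← mul_assoc, mul_assoc p a b]; exact e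
  have h1 := fix_right hn h e'
  refine ⟨q * (b * q) ^ (2 * n - 1), ?_⟩
  have e2 : 2 * n = (2 * n - 1) + 1 := by omega
  rw [e2, pow_succ'] at h1
  rw [mul_assoc, ← mul_assoc b, h1]

theorem stab_left (hn : 1 ≤ n) (h : ∀ x : M, x ^ 2 = x ^ (n + 2)) {a b : M}
    (e : leJ a (b * a)) : ∃ r : M, a = r * (b * a) := by
  obtain ⟨p, q, e⟩ := e
  have e' : a = (p * b) * a * q := by rw [mul_assoc p b a]; exact e
  have h1 := fix_left hn h e'
  refine ⟨(p * b) ^ (2 * n - 1) * p, ?_⟩
  have e2 : 2 * n = (2 * n - 1) + 1 := by omega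
  rw [e2, pow_succ] at h1
  rw [mul_assoc, ← mul_assoc p, ← mul_assoc, h1]

theorem cyc_eq (hn : 1 ≤ n) (h : ∀ x : M, x ^ 2 = x ^ (n + 2)) {a y : M}
    (e : leJ a (a * y * a)) : (a * y) ^ n * a = a := by
  obtain ⟨r, hr⟩ := stab_left hn h e
  have e' : a = r * a * (y * a) := by rw [mul_assoc r, ← mul_assoc a]; exact hr
  have h2 := iter_eq e' 2
  rw [mul_pow_mul]
  calc a * (y * a) ^ n = (r ^ 2 * a * (y * a) ^ 2) * (y * a) ^ n := by rw [← h2]
    _ = r ^ 2 * a * (y * a) ^ (n + 2) := by rw [mul_assoc (r ^ 2 * a), ← pow_add, add_comm]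
    _ = a := by rw [← h, ← h2]

end Monoid

section ZS
variable {n : ℕ}

theorem periodic_iff (Q : Semigrp.{0}) : Periodic n Q ↔ P1 n Q := Iff.rfl

/-- In a 0-simple semigroup every nonzero element generates everything as an ideal. -/
theorem ZeroSimple.exists_div {Q : Semigrp.{0}} (hQ : ZeroSimple Q) :
    ∃ z : Q, (∀ x : Q, z * x = z ∧ x * z = z) ∧
      ∀ a : Q, a ≠ z → ∀ b : Q, ∃ p q : Q, b = p * a * q := by
  obtain ⟨z, hz, ⟨x0, y0, hxy⟩, hI⟩ := hQ
  refine ⟨z, hz, ?_⟩
  have h2 : ∀ b : Q, ∃ p q : Q, b = p * q := by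
    rcases hI {b | ∃ p q : Q, b = p * q} ⟨x0 * y0, x0, y0, rfl⟩ (by
      rintro _ ⟨p, q, rfl⟩ s
      exact ⟨⟨s * p, q, by rw [mul_assoc]⟩, ⟨p, q * s, by rw [mul_assoc]⟩⟩) with h | h
    · exfalso
      have : x0 * y0 ∈ ({z} : Set Q) := by rw [← h]; exact ⟨x0, y0, rfl⟩
      exact hxy this
    · intro b
      have : b ∈ {b | ∃ p q : Q, b = p * q} := by rw [h]; trivial
      exact this
  have h3 : ∀ a : Q, (∀ p q : Q, p * a * q = z) → a = z := by
    rcases hI {a | ∀ p q : Q, p * a * q = z} ⟨z, fun p q => by rw [(hz p).2, (hz q).1]⟩ (by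
      intro a ha s
      exact ⟨fun p q => by rw [← mul_assoc]; exact ha _ _,
        fun p q => by rw [← mul_assoc, mul_assoc (p * a)]; exact ha _ _⟩) with h | h
    · intro a ha
      have : a ∈ ({z} : Set Q) := by rw [← h]; exact ha
      exact this
    · exfalso
      obtain ⟨p, q, hpq⟩ := h2 x0
      have : q ∈ {a | ∀ p q : Q, p * a * q = z} := by rw [h]; trivial
      apply hxy
      rw [hpq]
      exact this p y0
  intro a ha b
  rcases hI {b | ∃ p q : Q, b = p * a * q} ⟨a * a * a, a, a, rfl⟩ (by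
      rintro _ ⟨p, q, rfl⟩ s
      exact ⟨⟨s * p, q, by simp only [mul_assoc]⟩, ⟨p, q * s, by simp only [mul_assoc]⟩⟩) with
    h | h
  · exfalso
    apply ha
    apply h3
    intro p q
    have : p * a * q ∈ ({z} : Set Q) := by rw [← h]; exact ⟨p, q, rfl⟩
    exact this
  · have : b ∈ {b | ∃ p q : Q, b = p * a * q} := by rw [h]; trivial
    exact this

theorem zeroSimple_of_div {Q : Semigrp.{0}} (z : Q) (hz : ∀ x : Q, z * x = z ∧ x * z = z)
    (hne : ∃ x : Q, x ≠ z) (h : ∀ a : Q, a ≠ z → ∀ b : Q, ∃ p q : Q, b = p * a * q) :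
    ZeroSimple Q := by
  refine ⟨z, hz, ?_, ?_⟩
  · obtain ⟨x, hx⟩ := hne
    obtain ⟨p, q, hpq⟩ := h x hx x
    exact ⟨p * x, q, hpq ▸ hx⟩
  · intro I ⟨x, hx⟩ hI
    by_cases h0 : ∃ a ∈ I, a ≠ z
    · obtain ⟨a, ha, haz⟩ := h0
      right
      ext b
      simp only [Set.mem_univ, iff_true]
      obtain ⟨p, q, rfl⟩ := h a haz b
      exact (hI _ (hI a ha p).1 q).2
    · left
      push Not at h0
      ext b
      simp only [Set.mem_singleton_iff]
      constructor
      · exact h0 b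
      · rintro rfl
        rw [← h0 x hx]; exact hx

theorem ZeroSimple.op {Q : Semigrp.{0}} (hQ : ZeroSimple Q) :
    ZeroSimple (Semigrp.of (Qᵐᵒᵖ)) := by
  obtain ⟨z, hz, ⟨x, y, hxy⟩, _⟩ := id hQ
  obtain ⟨z', hz', hdiv⟩ := hQ.exists_div
  have : z = z' := by rw [← (hz z').1, (hz' z).2]
  subst this
  refine zeroSimple_of_div (Q := Semigrp.of (Qᵐᵒᵖ)) (MulOpposite.op z) ?_
    ⟨MulOpposite.op (x * y), fun h => hxy (MulOpposite.op_injective h)⟩ ?_
  · intro x
    exact ⟨MulOpposite.unop_injective (hz x.unop).2, MulOpposite.unop_injective (hz x.unop).1⟩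
  · intro a ha b
    obtain ⟨p, q, hpq⟩ := hdiv a.unop (fun h => ha (MulOpposite.unop_injective h)) b.unop
    refine ⟨MulOpposite.op q, MulOpposite.op p, MulOpposite.unop_injective ?_⟩
    simp only [MulOpposite.unop_mul, MulOpposite.unop_op]
    rw [hpq, mul_assoc]

/-- Basic property of periodic 0-simple semigroups. -/
theorem ZeroSimple.cyc {Q : Semigrp.{0}} (hn : 1 ≤ n) (hQ : ZeroSimple Q) (hP : P1 n Q) :
    ∃ z : Q, (∀ x : Q, z * x = z ∧ x * z = z) ∧
      (∀ a : Q, ∀ y : Q, a * y * a ≠ z →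
        (((a * y : Q)) : WithOne Q) ^ n * (a : WithOne Q) = a) ∧
      ∀ a : Q, ∃ y : Q, a * y * a = a := by
  obtain ⟨z, hz, hdiv⟩ := hQ.exists_div
  have key : ∀ a : Q, ∀ y : Q, a * y * a ≠ z →
      (((a * y : Q)) : WithOne Q) ^ n * (a : WithOne Q) = a := by
    intro a y h
    obtain ⟨p, q, hpq⟩ := hdiv _ h a
    rw [WithOne.coe_mul]
    apply cyc_eq hn hP.withOne
    refine ⟨p, q, ?_⟩
    have := congrArg (fun s : Q => (s : WithOne Q)) hpq
    simpa only [WithOne.coe_mul] using this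
  refine ⟨z, hz, key, ?_⟩
  intro a
  by_cases ha : a = z
  · exact ⟨a, by rw [ha, (hz z).1, (hz z).1]⟩
  · obtain ⟨p, q, hpq⟩ := hdiv a ha a
    have hq : q ≠ z := by rintro rfl; exact ha (by rw [hpq, (hz _).2])
    obtain ⟨p', q', hpq'⟩ := hdiv a ha q
    have hne : a * p' * a ≠ z := by
      intro h0
      apply ha
      calc a = p * a * q := hpq
        _ = p * a * (p' * a * q') := by rw [← hpq']
        _ = p * (a * p' * a) * q' := by simp only [mul_assoc]
        _ = z := by rw [h0, (hz _).2, (hz _).1]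
    have h1 := key a p' hne
    obtain ⟨m, rfl⟩ : ∃ m, n = m + 1 := ⟨n - 1, by omega⟩
    refine ⟨p' * sp (a * p') (2 * m), ?_⟩
    apply WithOne.coe_injective
    simp only [WithOne.coe_mul, coe_sp] at h1 ⊢
    set u : WithOne Q := (a : WithOne Q) * p' with hu
    have e : (a : WithOne Q) * (p' * u ^ (2 * m + 1)) * a = u ^ (m + 1) * (u ^ (m + 1) * a) := by
      rw [← mul_assoc (a : WithOne Q), ← hu, ← mul_assoc, ← pow_add, ← pow_succ']
      congr 2
      ring
    rw [e, h1, h1]

theorem ZeroSimple.P2 {Q : Semigrp.{0}} (hn : 1 ≤ n) (hQ : ZeroSimple Q) (hP : P1 n Q) :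
    ∀ x y : Q, x * y * x = x * y * (sp (x * y) (n - 1) * x) := by
  obtain ⟨z, hz, key, _⟩ := hQ.cyc hn hP
  intro x y
  by_cases h : x * y * x = z
  · obtain ⟨m, rfl⟩ : ∃ m, n = m + 1 := ⟨n - 1, by omega⟩
    have : ∀ k, sp (x * y) k * x = z := by
      intro k
      induction k with
      | zero => exact h
      | succ k ih => rw [sp_succ', mul_assoc, ih, (hz _).2]
    rw [this, h, (hz _).2]
  · have := key x y h
    apply WithOne.coe_injective
    rw [WithOne.coe_mul (x * y) (sp _ _ * x), WithOne.coe_mul (sp _ _), coe_sp,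
      show n - 1 + 1 = n by omega, this, WithOne.coe_mul]

theorem ZeroSimple.P3 {Q : Semigrp.{0}} (hn : 1 ≤ n) (hQ : ZeroSimple Q) (hP : P1 n Q) :
    ∀ x y w : Q, sp (x * y * x * w) (n - 1) * (x * w * x * y * x) = x * w * x * y * x := by
  obtain ⟨z, hz, hdiv⟩ := hQ.exists_div
  obtain ⟨z', hz', key, _⟩ := hQ.cyc hn hP
  have : z' = z := by rw [← (hz' z).1, (hz z').2]
  subst this
  intro x y w
  by_cases h : x * w * x * y * x = z'
  · rw [h, (hz _).2]
  · have h1 : x * w * x ≠ z' := by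
      intro h0; apply h; rw [h0, (hz _).1, (hz _).1]
    have h2 : x * y * x ≠ z' := by
      intro h0; apply h
      calc x * w * x * y * x = x * w * (x * y * x) := by simp only [mul_assoc]
        _ = z' := by rw [h0, (hz _).2]
    have k1 := key x w h1
    have k2 := key x y h2
    have h3 : x * (y * x * w) * x ≠ z' := by
      intro h0
      apply h1
      obtain ⟨m, rfl⟩ : ∃ m, n = m + 1 := ⟨n - 1, by omega⟩
      apply WithOne.coe_injective
      have h0' := congrArg (fun s : Q => (s : WithOne Q)) h0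
      simp only [WithOne.coe_mul] at k1 k2 h0' ⊢
      have hz0 : ∀ t : WithOne Q, t * z' = z' := by
        intro t
        induction t using WithOne.recOneCoe with
        | one => simp
        | coe t => rw [← WithOne.coe_mul, (hz t).2]
      calc (x : WithOne Q) * w * x = ((x : WithOne Q) * y) ^ (m + 1) * x * w * x := by rw [k2]
        _ = ((x : WithOne Q) * y) ^ m * (x * (y * x * w) * x) := by
          rw [pow_succ]; simp only [mul_assoc]
        _ = z' := by rw [h0', hz0]
    have k3 := key x (y * x * w) h3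
    apply WithOne.coe_injective
    simp only [WithOne.coe_mul, coe_sp] at k3 ⊢
    rw [show n - 1 + 1 = n by omega]
    simp only [mul_assoc] at k3 ⊢
    rw [← mul_assoc, k3]

end ZS

end Pool.Agent.MP_634f99_al.H46
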