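import Mathlib
import Pool.Agent.MP_634f99_al.H46.Basic

/-! Separation of regular elements by homomorphisms onto 0-simple semigroups. -/

namespace Pool.Agent.MP_634f99_al.H46

section
variable {T : Type} [Semigroup T] {n : ℕ}

/-- `a` lies in the ideal generated by `s`. -/
def Good (a s : T) : Prop := leJ (a : WithOne T) (s : WithOne T)

theorem Good.of_mul_left {a s t : T} (h : Good a (s * t)) : Good a t :=
  leJ_trans h (by rw [WithOne.coe_mul]; exact leJ_mul_left _ _)

theorem Good.of_mul_right {a s t : T} (h : Good a (s * t)) : Good a s :=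
  leJ_trans h (by rw [WithOne.coe_mul]; exact leJ_mul_right _ _)

theorem Good.trans {a b c : T} (h : Good a b) (h' : Good b c) : Good a c := leJ_trans h h'

theorem Good.refl (a : T) : Good a a := leJ_refl _

theorem low_mul_left {a s : T} (t : T) (h : Good s a) : Good (t * s) a :=
  Good.trans (Good.of_mul_left (Good.refl _)) h

theorem low_mul_right {a s : T} (t : T) (h : Good s a) : Good (s * t) a :=
  Good.trans (Good.of_mul_right (Good.refl _)) h

theorem good_conn {a a' : T} (ha : a * a' * a = a) {c c' : T} (hc : Good a c) (hc' : Good a c') :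
    ∃ d : T, Good d a ∧ Good a (c * d * c') := by
  obtain ⟨p, q, hpq⟩ := hc
  obtain ⟨p', q', hpq'⟩ := hc'
  have ha' : (a : WithOne T) * a' * a = a := by
    rw [← WithOne.coe_mul, ← WithOne.coe_mul, ha]
  have hne : q * (a' * a * a' : T) * p' ≠ 1 := by
    induction q using WithOne.recOneCoe <;> induction p' using WithOne.recOneCoe <;>
      simp [← WithOne.coe_mul]
  obtain ⟨d, hd⟩ := WithOne.ne_one_iff_exists.mp hne
  refine ⟨d, ⟨q * a', a' * p', ?_⟩, ⟨p, q', ?_⟩⟩
  · rw [hd]; simp only [WithOne.coe_mul, mul_assoc]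
  · simp only [WithOne.coe_mul]
    rw [hd]
    simp only [WithOne.coe_mul]
    calc (a : WithOne T) = a * a' * a * a' * a := by rw [ha', ha']
      _ = (p * c * q) * a' * a * a' * (p' * c' * q') := by rw [← hpq, ← hpq']
      _ = _ := by simp only [mul_assoc]

theorem good_link (hn : 1 ≤ n) (h1 : P1 n T) (h2 : P2 n T) {a a' : T} (ha : a * a' * a = a)
    {s t t' : T} (hts : Good a (t * s)) (hst : Good a (s * t')) : Good a (t * s * t') := by
  obtain ⟨d, _, hd⟩ := good_conn ha hst hts
  refine leJ_trans hd ?_
  obtain ⟨m, rfl⟩ : ∃ m, n = m + 1 := ⟨n - 1, by omega⟩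
  have := h2.withOne h1 s ((t' : WithOne T) * d * t)
  refine ⟨(s : WithOne T) * t' * d, (d : WithOne T) * t * ((s : WithOne T) * (t' * d * t)) ^ m * s,
    ?_⟩
  simp only [WithOne.coe_mul]
  calc (s : WithOne T) * t' * d * (t * s) = s * (t' * d * t) * s := by simp only [mul_assoc]
    _ = ((s : WithOne T) * (t' * d * t)) ^ (m + 1 + 1) * s := this
    _ = _ := by rw [pow_succ', pow_succ']; simp only [mul_assoc]

theorem good_closure (hn : 1 ≤ n) (h1 : P1 n T) (h2 : P2 n T) {a a' : T} (ha : a * a' * a = a)
    {s t t' : T} (ht : Good t a) (ht' : Good t' a) (hsts : Good a (s * t * s))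
    (hsts' : Good a (s * t' * s)) {w : T}
    (hw : w ∈ Subsemigroup.closure ({s * t, s * t'} : Set T)) :
    ∃ τ : T, w = s * τ ∧ Good τ a ∧ Good a (s * τ) ∧ Good a (τ * s) := by
  induction hw using Subsemigroup.closure_induction with
  | mem x hx =>
    rcases hx with rfl | rfl
    · exact ⟨t, rfl, ht, hsts.of_mul_right, by rw [mul_assoc] at hsts; exact hsts.of_mul_left⟩
    · exact ⟨t', rfl, ht', hsts'.of_mul_right,
        by rw [mul_assoc] at hsts'; exact hsts'.of_mul_left⟩
  | mul x y _ _ hx hy =>
    obtain ⟨τ1, rfl, l1, g1, g1'⟩ := hx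
    obtain ⟨τ2, rfl, l2, g2, g2'⟩ := hy
    have hl := good_link hn h1 h2 ha g1' g2
    refine ⟨τ1 * s * τ2, by simp only [mul_assoc], low_mul_left _ l2, ?_, ?_⟩
    · have e : leJ (τ1 : WithOne T) ((τ1 : WithOne T) * (s * τ2)) := by
        have := l1.trans hl
        simpa only [Good, WithOne.coe_mul, mul_assoc] using this
      obtain ⟨r, hr⟩ := stab_right hn h1.withOne e
      refine leJ_trans g1 ⟨1, r, ?_⟩
      simp only [WithOne.coe_mul]
      conv_lhs => rw [hr]
      simp only [mul_assoc, one_mul]
    · have e : leJ (τ2 : WithOne T) (((τ1 : WithOne T) * s) * τ2) := by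
        have := l2.trans hl
        simpa only [Good, WithOne.coe_mul] using this
      obtain ⟨r, hr⟩ := stab_left hn h1.withOne e
      refine leJ_trans g2' ⟨r, 1, ?_⟩
      simp only [WithOne.coe_mul]
      conv_lhs => rw [hr]
      simp only [mul_assoc, mul_one]

theorem good_act (hn : 1 ≤ n) (h1 : P1 n T) (h2 : P2 n T) (hL : PL T) {a a' : T}
    (ha : a * a' * a = a) {s t : T} (ht : Good t a) (hsts : Good a (s * t * s))
    {y : T} (hy : Good y a) (hsy : Good a (s * y)) :
    sp (s * t) (n - 1) * s * y = s * y := by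
  obtain ⟨d, hd, hd'⟩ := good_conn ha hsy hsy
  have hsts' : Good a (s * (y * d) * s) := by
    have : s * y * d * (s * y) = s * (y * d) * s * y := by simp only [mul_assoc]
    rw [this] at hd'
    exact hd'.of_mul_right
  have ht' : Good (y * d) a := low_mul_right _ hy
  obtain ⟨p, hp, q, hq, hpq⟩ := hL s t (y * d)
  have mα : s * t ∈ Subsemigroup.closure ({s * t, s * (y * d)} : Set T) :=
    Subsemigroup.subset_closure (by simp)
  have mβ : s * (y * d) ∈ Subsemigroup.closure ({s * t, s * (y * d)} : Set T) :=
    Subsemigroup.subset_closure (by simp)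
  have gq : Good a (s * (y * d) * q * s) := by
    obtain ⟨τ, hτ, _, g, _⟩ := good_closure hn h1 h2 ha ht ht' hsts hsts'
      (Subsemigroup.mul_mem _ (Subsemigroup.mul_mem _ mβ hq) mα)
    rw [← hτ, ← mul_assoc] at g
    exact g.of_mul_right
  have gα : Good a (s * t * (s * t)) := by
    obtain ⟨τ, hτ, _, g, _⟩ := good_closure hn h1 h2 ha ht ht' hsts hsts'
      (Subsemigroup.mul_mem _ mα mα)
    rwa [← hτ] at g
  have e1 : leJ ((s * t : T) : WithOne T) (((s * t : T) : WithOne T) * 1 * (s * t : T)) := by
    have := (low_mul_left s ht).trans gα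
    rw [mul_one, ← WithOne.coe_mul]
    exact this
  have k1 := cyc_eq hn h1.withOne e1
  rw [mul_one] at k1
  have e2 : leJ ((s * (y * d) : T) : WithOne T)
      (((s * (y * d) : T) : WithOne T) * (q * s : T)) := by
    have := (low_mul_left s ht').trans gq
    rw [← WithOne.coe_mul, ← mul_assoc (s * (y * d)) q s]
    exact this
  obtain ⟨r, hr⟩ := stab_right hn h1.withOne e2
  have e3 : leJ ((s * y : T) : WithOne T) (((s * y : T) : WithOne T) * d) := by
    have := (low_mul_left s hy).trans (hsts'.of_mul_right)
    rw [← WithOne.coe_mul, mul_assoc]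
    exact this
  obtain ⟨r', hr'⟩ := stab_right hn h1.withOne e3
  have hβ : ((s * (y * d) : T) : WithOne T) = ((s * t : T) : WithOne T) * (p * s * r) := by
    rw [hr, ← WithOne.coe_mul, ← mul_assoc, ← hpq]
    simp only [WithOne.coe_mul, mul_assoc]
  have hy' : ((s * y : T) : WithOne T) = ((s * t : T) : WithOne T) * (p * s * r * r') := by
    rw [hr', ← WithOne.coe_mul, mul_assoc s y d, hβ]
    simp only [mul_assoc]
  apply WithOne.coe_injective
  rw [mul_assoc, WithOne.coe_mul, coe_sp, show n - 1 + 1 = n by omega, hy', ← mul_assoc, k1]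

/-- The congruence identifying elements with the same left action on the class of `a`. -/
def kcon (a : T) : Con T where
  r s t := ∀ y : T, Good y a → (Good a (s * y) ∨ Good a (t * y)) → s * y = t * y
  iseqv :=
    { refl := fun _ _ _ _ => rfl
      symm := fun h y hy hg => (h y hy hg.symm).symm
      trans := fun {s t u} h h' y hy hg => by
        rcases hg with hg | hg
        · have e := h y hy (Or.inl hg)
          rw [e]
          exact h' y hy (Or.inl (e ▸ hg))
        · have e := h' y hy (Or.inr hg)
          rw [← e]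
          exact h y hy (Or.inr (e ▸ hg)) }
  mul' := by
    intro w x y z h h' u hu hg
    have hA : ∀ {s t : T}, (∀ y : T, Good y a → (Good a (s * y) ∨ Good a (t * y)) → s * y = t * y)
        → ∀ r u : T, Good u a → Good a (r * s * u) → r * s * u = r * t * u := by
      intro s t h r u hu hg
      rw [mul_assoc] at hg
      rw [mul_assoc, mul_assoc, h u hu (Or.inl hg.of_mul_left)]
    rcases hg with hg | hg
    · have e1 := hA h' w u hu hg
      rw [e1] at hg ⊢
      rw [mul_assoc] at hg
      rw [mul_assoc, mul_assoc]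
      exact h _ (low_mul_left _ hu) (Or.inl hg)
    · have e1 := hA (fun y hy hg => (h' y hy hg.symm).symm) x u hu hg
      rw [e1] at hg ⊢
      rw [mul_assoc] at hg
      rw [mul_assoc, mul_assoc]
      exact h _ (low_mul_left _ hu) (Or.inr hg)

theorem kcon_iff (a s t : T) : kcon a s t ↔
    ∀ y : T, Good y a → (Good a (s * y) ∨ Good a (t * y)) → s * y = t * y := Iff.rfl

theorem kub_zero (hn : 1 ≤ n) (z : T) (hz : ∀ x, z * x = z ∧ x * z = z) (h1 : P1 n T)
    (h2 : P2 n T) (hL : PL T) (a a' : T) (ha : a * a' * a = a) (haz : a ≠ z) :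
    ∃ Q : Semigrp.{0}, ZeroSimple Q ∧ P1 n Q ∧
      ∃ φ : T →ₙ* Q, ∀ b, φ a = φ b → a = b * a' * a := by
  have hngz : ¬ Good a z := by
    rintro ⟨p, q, hpq⟩
    apply haz
    apply WithOne.coe_injective
    rw [hpq]
    induction q using WithOne.recOneCoe <;> induction p using WithOne.recOneCoe <;>
      simp [← WithOne.coe_mul, hz]
  let φ : T →ₙ* (kcon a).Quotient := Con.mkMulHom (kcon a)
  have hφ : ∀ s t, φ s = φ t ↔ kcon a s t := fun s t => Con.eq _
  have hsurj : Function.Surjective φ := fun q => Con.induction_on q fun s => ⟨s, rfl⟩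
  have hzero : ∀ s, φ s ≠ φ z → ∃ y, Good y a ∧ Good a (s * y) := by
    intro s hs
    by_contra hcon
    push Not at hcon
    apply hs
    rw [hφ, kcon_iff]
    intro y hy hg
    rcases hg with hg | hg
    · exact absurd hg (hcon y hy)
    · rw [(hz y).1] at hg
      exact absurd hg hngz
  have hrep : ∀ s, φ s ≠ φ z → ∃ s', Good s' a ∧ φ s = φ s' := by
    intro s hs
    obtain ⟨y, hy, hsy⟩ := hzero s hs
    obtain ⟨d, hd, hd'⟩ := good_conn ha hsy hsy
    have hsts : Good a (s * (y * d) * s) := by
      have : s * y * d * (s * y) = s * (y * d) * s * y := by simp only [mul_assoc]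
      rw [this] at hd'
      exact hd'.of_mul_right
    have ht : Good (y * d) a := low_mul_right _ hy
    refine ⟨sp (s * (y * d)) (n - 1) * s, ?_, ?_⟩
    · apply low_mul_right
      generalize n - 1 = k
      induction k with
      | zero => exact low_mul_left _ ht
      | succ k ih => rw [sp_succ]; exact low_mul_right _ ih
    · rw [hφ, kcon_iff]
      intro u hu hg
      have hg' : Good a (s * u) := by
        rcases hg with hg | hg
        · exact hg
        · rw [mul_assoc] at hg; exact hg.of_mul_left
      exact (good_act hn h1 h2 hL ha ht hsts hu hg').symm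
  have hlow : Good (a' * a) a := low_mul_left _ (Good.refl a)
  have hga : Good a (a * (a' * a)) := by rw [← mul_assoc, ha]; exact Good.refl a
  refine ⟨Semigrp.of (kcon a).Quotient, ?_, ?_, φ, ?_⟩
  · refine zeroSimple_of_div (Q := Semigrp.of (kcon a).Quotient) (φ z) ?_ ⟨φ a, ?_⟩ ?_
    · intro x
      obtain ⟨x, rfl⟩ := hsurj x
      exact ⟨by rw [← map_mul, (hz x).1], by rw [← map_mul, (hz x).2]⟩
    · intro h
      have := (hφ _ _).mp h _ hlow (Or.inl hga)
      rw [(hz _).1, ← mul_assoc, ha] at this
      exact haz this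
    · intro s hs b
      obtain ⟨s, rfl⟩ := hsurj s
      obtain ⟨b, rfl⟩ := hsurj b
      by_cases hb : φ b = φ z
      · refine ⟨φ z, φ z, ?_⟩
        rw [hb, ← map_mul, ← map_mul, (hz _).2]
      · obtain ⟨b', hb', hbb'⟩ := hrep b hb
        obtain ⟨y, hy, hsy⟩ := hzero s hs
        obtain ⟨d, _, hd⟩ := good_conn ha (Good.refl a) hsy
        obtain ⟨p, q, hpq⟩ := hb'.trans hd
        have hne1 : p * (a * d : T) ≠ 1 := by
          induction p using WithOne.recOneCoe <;> simp [← WithOne.coe_mul]
        have hne2 : (y : WithOne T) * q ≠ 1 := by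
          induction q using WithOne.recOneCoe <;> simp [← WithOne.coe_mul]
        obtain ⟨p', hp'⟩ := WithOne.ne_one_iff_exists.mp hne1
        obtain ⟨q', hq'⟩ := WithOne.ne_one_iff_exists.mp hne2
        refine ⟨φ p', φ q', ?_⟩
        rw [hbb', ← map_mul, ← map_mul]
        congr 1
        apply WithOne.coe_injective
        simp only [WithOne.coe_mul] at hpq hp' ⊢
        rw [hpq, hp', hq']
        simp only [mul_assoc]
  · intro x
    obtain ⟨x, rfl⟩ := hsurj x
    rw [← map_mul, h1 x, map_sp]
  · intro b hb
    have := (hφ _ _).mp hb _ hlow (Or.inl hga)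
    rw [← mul_assoc, ha, ← mul_assoc] at this
    exact this

theorem sp_zero_elt {S : Type*} [SemigroupWithZero S] (k : ℕ) : sp (0 : S) k = 0 := by
  induction k with
  | zero => rfl
  | succ k ih => rw [sp_succ, ih, mul_zero]

/-- The embedding in the semigroup with an adjoined zero. -/
def toZero (S : Type*) [Semigroup S] : S →ₙ* WithZero S where
  toFun := fun s => (s : WithZero S)
  map_mul' := fun _ _ => WithZero.coe_mul _ _

theorem P1.withZero {S : Type*} [Semigroup S] (h : P1 n S) : P1 n (WithZero S) := by
  intro x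
  induction x using WithZero.recZeroCoe with
  | zero => rw [sp_zero_elt, mul_zero]
  | coe x => exact ((map_mul (toZero S) x x).symm.trans (congrArg _ (h x))).trans (map_sp _ _ _)

theorem P2.withZero {S : Type*} [Semigroup S] (h : P2 n S) : P2 n (WithZero S) := by
  intro x y
  induction x using WithZero.recZeroCoe with
  | zero => simp
  | coe x =>
    induction y using WithZero.recZeroCoe with
    | zero => simp [sp_zero_elt]
    | coe y =>
      have := congrArg (toZero S) (h x y)
      simp only [map_mul, map_sp] at this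
      exact this

theorem PL.withZero {S : Type*} [Semigroup S] (h : PL S) : PL (WithZero S) := by
  intro s t t'
  have mα : s * t ∈ Subsemigroup.closure ({s * t, s * t'} : Set (WithZero S)) :=
    Subsemigroup.subset_closure (by simp)
  have mβ : s * t' ∈ Subsemigroup.closure ({s * t, s * t'} : Set (WithZero S)) :=
    Subsemigroup.subset_closure (by simp)
  induction s using WithZero.recZeroCoe with
  | zero => exact ⟨_, mα, _, mα, by simp⟩
  | coe s =>
    induction t using WithZero.recZeroCoe with
    | zero => exact ⟨_, mα, _, mα, by simp⟩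
    | coe t =>
      induction t' using WithZero.recZeroCoe with
      | zero => exact ⟨_, mβ, _, mβ, by simp⟩
      | coe t' =>
        obtain ⟨p, hp, q, hq, hpq⟩ := h s t t'
        have key : ∀ w ∈ Subsemigroup.closure ({s * t, s * t'} : Set S),
            toZero S w ∈ Subsemigroup.closure
              ({(s : WithZero S) * t, (s : WithZero S) * t'} : Set (WithZero S)) := by
          intro w hw
          induction hw using Subsemigroup.closure_induction with
          | mem x hx =>
            rcases hx with rfl | rfl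
            · exact mα
            · exact mβ
          | mul x y _ _ hx hy => rw [map_mul]; exact Subsemigroup.mul_mem _ hx hy
        refine ⟨_, key p hp, _, key q hq, ?_⟩
        have := congrArg (toZero S) hpq
        simp only [map_mul] at this
        exact this

/-- Two elements are inseparable if every homomorphism to a periodic 0-simple semigroup
identifies them. -/
def Insep (n : ℕ) {T : Type} [Semigroup T] (a b : T) : Prop :=
  ∀ Q : Semigrp.{0}, ZeroSimple Q → P1 n Q → ∀ φ : T →ₙ* Q, φ a = φ b

theorem kub_left (hn : 1 ≤ n) (h1 : P1 n T) (h2 : P2 n T) (hL : PL T) {a a' b : T}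
    (ha : a * a' * a = a) (h : Insep n a b) : a = b * a' * a := by
  obtain ⟨Q, hQ, hP, φ, hφ⟩ := kub_zero (T := WithZero T) hn 0 (by simp) h1.withZero h2.withZero
    hL.withZero (a : WithZero T) (a' : WithZero T)
    (by rw [← WithZero.coe_mul, ← WithZero.coe_mul, ha]) WithZero.coe_ne_zero
  have := hφ b (h Q hQ hP (φ.comp (toZero T)))
  rw [← WithZero.coe_mul, ← WithZero.coe_mul] at this
  exact WithZero.coe_injective this

theorem Insep.op {a b : T} (h : Insep n a b) :
    Insep n (MulOpposite.op a) (MulOpposite.op b) := by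
  intro Q hQ hP φ
  let ψ : T →ₙ* Qᵐᵒᵖ :=
    { toFun := fun t => MulOpposite.op (φ (MulOpposite.op t))
      map_mul' := fun x y => by rw [MulOpposite.op_mul, map_mul, MulOpposite.op_mul] }
  have := h (Semigrp.of (Qᵐᵒᵖ)) hQ.op hP.op ψ
  exact MulOpposite.op_injective this

theorem kub (hn : 1 ≤ n) (h1 : P1 n T) (h2 : P2 n T) (hL : PL T) (hR : PL Tᵐᵒᵖ) {a a' b b' : T}
    (ha : a * a' * a = a) (hb : b * b' * b = b) (h : Insep n a b) : a = b := by
  have e1 : b = a * b' * b := kub_left hn h1 h2 hL hb (fun Q hQ hP φ => (h Q hQ hP φ).symm)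
  have e2 : MulOpposite.op a = MulOpposite.op b * MulOpposite.op a' * MulOpposite.op a :=
    kub_left hn h1.op h2.op hR (a' := MulOpposite.op a')
      (by rw [← MulOpposite.op_mul, ← MulOpposite.op_mul, ← mul_assoc, ha]) h.op
  rw [← MulOpposite.op_mul, ← MulOpposite.op_mul] at e2
  have e3 : a = a * (a' * b) := MulOpposite.op_injective e2
  calc a = a * (a' * b) := e3
    _ = a * (a' * (a * b' * b)) := by rw [← e1]
    _ = (a * a' * a) * b' * b := by simp only [mul_assoc]
    _ = b := by rw [ha, ← e1]

end

end Pool.Agent.MP_634f99_al.H46
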