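import Mathlib
import Pool.Agent.MP_634f99_al.H46.Kub

/-! Word combinatorics and the characterisation of the members of `RS n`. -/

namespace Pool.Agent.MP_634f99_al.H46

/-- Evaluation of a list of letters in the monoid with adjoined identity. -/
def ev {α S : Type*} [Semigroup S] (f : α → S) (l : List α) : WithOne S :=
  (l.map fun i => ((f i : S) : WithOne S)).prod

section
variable {α S : Type*} [Semigroup S]

@[simp] theorem ev_nil (f : α → S) : ev f [] = 1 := rfl

@[simp] theorem ev_cons (f : α → S) (x : α) (l : List α) :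
    ev f (x :: l) = (f x : WithOne S) * ev f l := by simp [ev]

@[simp] theorem ev_append (f : α → S) (l l' : List α) : ev f (l ++ l') = ev f l * ev f l' := by
  simp [ev]

theorem coe_lift (f : α → S) (w : FreeSemigroup α) :
    ((FreeSemigroup.lift f w : S) : WithOne S) = ev f (w.head :: w.tail) := by
  induction w using FreeSemigroup.recOnMul with
  | ih1 x => rw [FreeSemigroup.lift_of]; simp [FreeSemigroup.of]
  | ih2 x y _ hy =>
    rw [FreeSemigroup.lift_of_mul, WithOne.coe_mul, hy]
    simp [FreeSemigroup.of]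

theorem ev_congr {f g : α → S} {l : List α} (h : ∀ x ∈ l, f x = g x) : ev f l = ev g l := by
  induction l with
  | nil => rfl
  | cons x l ih =>
    rw [ev_cons, ev_cons, h x (by simp), ih fun y hy => h y (by simp [hy])]

theorem ev_absorb_right {f : α → S} {e : S} {w : WithOne S} (hw : w * e = w) {l : List α}
    (h : ∀ x ∈ l, f x = e) : w * ev f l = w := by
  induction l with
  | nil => simp
  | cons x l ih =>
    rw [ev_cons, h x (by simp), ← mul_assoc, hw, ih fun y hy => h y (by simp [hy])]

theorem ev_absorb_left {f : α → S} {e : S} {w : WithOne S} (hw : e * w = w) {l : List α}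
    (h : ∀ x ∈ l, f x = e) : ev f l * w = w := by
  induction l with
  | nil => simp
  | cons x l ih =>
    rw [ev_cons, h x (by simp), mul_assoc, ih fun y hy => h y (by simp [hy]), hw]

theorem ev_map_hom {T : Type*} [Semigroup T] (φ : S →ₙ* T) (f : α → S) (l : List α) :
    WithOne.mapMulHom φ (ev f l) = ev (fun i => φ (f i)) l := by
  induction l with
  | nil => simp
  | cons x l ih => rw [ev_cons, ev_cons, map_mul, ih]; rfl

theorem ev_ne_one (f : α → S) {l : List α} (h : l ≠ []) : ev f l ≠ 1 := by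
  obtain ⟨x, l, rfl⟩ := List.exists_cons_of_ne_nil h
  rw [← coe_lift f ⟨x, l⟩]
  exact WithOne.coe_ne_one

end

/-- The identity `u = v` holds in all periodic 0-simple semigroups. -/
def RSL (n : ℕ) {α : Type} (u v : List α) : Prop :=
  ∀ Q : Semigrp.{0}, ZeroSimple Q → P1 n Q → ∀ f : α → Q, ev f u = ev f v

theorem RSL.symm {n : ℕ} {α : Type} {u v : List α} (h : RSL n u v) : RSL n v u :=
  fun Q h1 h2 f => (h Q h1 h2 f).symm

/-- The five-element 0-simple semigroup. -/
inductive A2 : Type
  | zero : A2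
  | el : Bool → Bool → A2
  deriving DecidableEq, Fintype

/-- Multiplication of the five-element semigroup. -/
def A2.mul : A2 → A2 → A2
  | .el i l, .el j m => if l && j then .zero else .el i m
  | _, _ => .zero

instance : Semigroup A2 where
  mul := A2.mul
  mul_assoc := by decide

theorem P1_of_cube {S : Type*} [Semigroup S] (h : ∀ x : S, x * x * x = x * x) (n : ℕ) :
    P1 n S := by
  intro x
  induction n with
  | zero => rfl
  | succ n ih => rw [sp_succ, ← ih, h]

theorem A2_P1 (n : ℕ) : P1 n A2 := P1_of_cube (by decide) n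

theorem A2_zeroSimple : ZeroSimple (Semigrp.of A2) :=
  zeroSimple_of_div (Q := Semigrp.of A2) A2.zero (by decide)
    ⟨A2.el true true, by decide⟩ (by decide)

/-- Adjacent letters. -/
def Adj {α : Type*} (l : List α) (p q : α) : Prop := ∃ l1 l2, l = l1 ++ p :: q :: l2

theorem ev_A2 {α : Type} (r c : α → Bool) (x : α) (l : List α) :
    ev (fun t => A2.el (r t) (c t)) (x :: l) =
      ((if List.IsChain (fun p q => (c p && r q) = false) (x :: l)
        then A2.el (r x) (c ((x :: l).getLast (by simp))) else A2.zero : A2) : WithOne A2) := by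
  induction l generalizing x with
  | nil => simp
  | cons y l ih =>
    rw [ev_cons, ih y, ← WithOne.coe_mul]
    congr 1
    simp only [List.isChain_cons_cons, List.getLast_cons_cons]
    by_cases h : List.IsChain (fun p q => (c p && r q) = false) (y :: l)
    · simp only [h, if_true, and_true]
      change A2.mul _ _ = _
      simp only [A2.mul]
      cases c x <;> cases r y <;> simp
    · simp only [h, if_false, and_false]
      rfl

section
variable {n : ℕ} {α : Type} {u v : List α}

theorem RSL.ne_nil (h : RSL n u v) (hu : u ≠ []) : v ≠ [] := by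
  rintro rfl
  exact ev_ne_one _ hu (h _ A2_zeroSimple (A2_P1 n) fun _ => A2.zero)

theorem RSL.head (h : RSL n u v) (hu : u ≠ []) : u.head? = v.head? := by
  classical
  obtain ⟨x, l, rfl⟩ := List.exists_cons_of_ne_nil hu
  obtain ⟨y, l', rfl⟩ := List.exists_cons_of_ne_nil (h.ne_nil hu)
  have := h _ A2_zeroSimple (A2_P1 n)
    (fun t => A2.el (decide (t = x)) false)
  rw [ev_A2 (fun t => decide (t = x)) (fun _ => false),
    ev_A2 (fun t => decide (t = x)) (fun _ => false), WithOne.coe_inj] at this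
  have hc : ∀ l : List α, List.IsChain (fun _ q => (false && decide (q = x)) = false) l := by
    intro l
    rw [List.isChain_iff_forall_rel_of_append_cons_cons]
    simp
  simp only [hc, if_true] at this
  have h2 := (A2.el.inj this).1
  simp at h2
  simp [h2]

theorem RSL.last (h : RSL n u v) (hu : u ≠ []) : u.getLast? = v.getLast? := by
  classical
  obtain ⟨x, l, rfl⟩ := List.exists_cons_of_ne_nil hu
  obtain ⟨y, l', rfl⟩ := List.exists_cons_of_ne_nil (h.ne_nil hu)
  set w := (x :: l).getLast (by simp) with hw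
  have := h _ A2_zeroSimple (A2_P1 n)
    (fun t => A2.el false (decide (t = w)))
  rw [ev_A2 (fun _ => false) (fun t => decide (t = w)),
    ev_A2 (fun _ => false) (fun t => decide (t = w)), WithOne.coe_inj] at this
  have hc : ∀ l : List α, List.IsChain (fun p _ => (decide (p = w) && false) = false) l := by
    intro l
    rw [List.isChain_iff_forall_rel_of_append_cons_cons]
    simp
  simp only [hc, if_true] at this
  have h2 := (A2.el.inj this).2
  simp only [← hw, decide_true, Bool.true_eq, decide_eq_true_eq] at h2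
  rw [List.getLast?_eq_some_getLast (by simp), List.getLast?_eq_some_getLast (by simp), h2]

theorem RSL.adj (h : RSL n u v) {p q : α} (hpq : Adj u p q) : Adj v p q := by
  classical
  have hu : u ≠ [] := by
    obtain ⟨l1, l2, rfl⟩ := hpq
    simp
  obtain ⟨x, l, rfl⟩ := List.exists_cons_of_ne_nil hu
  obtain ⟨y, l', rfl⟩ := List.exists_cons_of_ne_nil (h.ne_nil hu)
  have := h _ A2_zeroSimple (A2_P1 n)
    (fun t => A2.el (decide (t = q)) (decide (t = p)))
  rw [ev_A2 (fun t => decide (t = q)) (fun t => decide (t = p)),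
    ev_A2 (fun t => decide (t = q)) (fun t => decide (t = p)), WithOne.coe_inj] at this
  have hc : ∀ l : List α,
      List.IsChain (fun a b => (decide (a = p) && decide (b = q)) = false) l ↔ ¬ Adj l p q := by
    intro l
    rw [List.isChain_iff_forall_rel_of_append_cons_cons]
    constructor
    · rintro h ⟨l1, l2, e⟩
      simpa using h e
    · intro h a b l1 l2 e
      by_contra hcon
      simp only [Bool.and_eq_false_imp, decide_eq_true_eq, decide_eq_false_iff_not,
        Classical.not_imp, not_not] at hcon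
      obtain ⟨rfl, rfl⟩ := hcon
      exact h ⟨l1, l2, e⟩
  by_contra hcon
  rw [if_neg (by rw [hc]; exact not_not.mpr hpq), if_pos (by rw [hc]; exact hcon)] at this
  exact absurd this (by intro h; cases h)

theorem adj_append {u1 u2 l1 l2 : List α} {p q : α} (h : u1 ++ u2 = l1 ++ p :: q :: l2) :
    (p ∈ u1 ∧ q ∈ u1) ∨ (p ∈ u2 ∧ q ∈ u2) ∨ (u1 = l1 ++ [p] ∧ u2 = q :: l2) := by
  rcases List.append_eq_append_iff.mp h with ⟨a, rfl, h2⟩ | ⟨a, rfl, h2⟩
  · right; left
    rw [h2]; simp
  · rcases a with _ | ⟨b, _ | ⟨c, a⟩⟩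
    · right; left
      simp only [List.nil_append] at h2
      rw [← h2]; simp
    · right; right
      simp only [List.cons_append, List.nil_append, List.cons.injEq] at h2
      obtain ⟨rfl, rfl⟩ := h2
      exact ⟨rfl, rfl⟩
    · left
      simp only [List.cons_append, List.cons.injEq] at h2
      obtain ⟨rfl, rfl, _⟩ := h2
      simp

theorem all_not_of_chain (C : α → Prop) (x : α) (l : List α) (hx : ¬ C x)
    (h : ∀ p q, Adj (x :: l) p q → ¬ C p → ¬ C q) : ∀ y ∈ x :: l, ¬ C y := by
  induction l generalizing x with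
  | nil => simpa using hx
  | cons z l ih =>
    have hz : ¬ C z := h x z ⟨[], l, rfl⟩ hx
    have := ih z hz fun p q ⟨l1, l2, e⟩ => h p q ⟨x :: l1, l2, by rw [e]; rfl⟩
    intro y hy
    rcases List.mem_cons.mp hy with rfl | hy
    · exact hx
    · exact this y hy

theorem split_transfer (hn : 1 ≤ n) {u1 u2 : List α} (h : RSL n (u1 ++ u2) v) (h1 : u1 ≠ [])
    (h2 : u2 ≠ []) (hd : ∀ x ∈ u1, x ∉ u2) :
    ∃ v1 v2, v = v1 ++ v2 ∧ v1 ≠ [] ∧ v2 ≠ [] ∧ (∀ x ∈ v1, x ∉ v2) ∧
      RSL n u1 v1 ∧ RSL n u2 v2 := by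
  classical
  have hne : u1 ++ u2 ≠ [] := by simp [h1]
  set v1 := v.takeWhile (fun x => decide (x ∈ u1)) with hv1
  set v2 := v.dropWhile (fun x => decide (x ∈ u1)) with hv2
  have hv : v = v1 ++ v2 := List.takeWhile_append_dropWhile.symm
  have hin : ∀ x ∈ v1, x ∈ u1 := fun x hx => by simpa using List.mem_takeWhile_imp hx
  have hv1ne : v1 ≠ [] := by
    have hh := h.head hne
    obtain ⟨x, l, rfl⟩ := List.exists_cons_of_ne_nil h1
    obtain ⟨l', hl'⟩ := List.head?_eq_some_iff.mp hh.symm
    rw [hv1, hl']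
    simp
  have hv2ne : v2 ≠ [] := by
    intro h0
    have hl := h.last hne
    obtain ⟨l, x, rfl⟩ := List.eq_nil_or_concat' u2 |>.resolve_left h2
    rw [← List.append_assoc, List.getLast?_concat] at hl
    obtain ⟨l', hl'⟩ := List.getLast?_eq_some_iff.mp hl.symm
    have : x ∈ v1 := by
      rw [h0, List.append_nil] at hv
      rw [← hv, hl']; simp
    exact hd x (hin x this) (by simp)
  obtain ⟨q, l2, hq⟩ := List.exists_cons_of_ne_nil hv2ne
  obtain ⟨l1, p, hp⟩ := List.eq_nil_or_concat' v1 |>.resolve_left hv1ne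
  have hqn : q ∉ u1 := by
    have := List.head?_dropWhile_not (fun x => decide (x ∈ u1)) v
    rw [← hv2, hq] at this
    simpa using this
  have hpin : p ∈ u1 := hin p (by rw [hp]; simp)
  have hout : ∀ x ∈ v2, x ∉ u1 := by
    rw [hq]
    apply all_not_of_chain (fun x => x ∈ u1) q l2 hqn
    rintro a b ⟨m1, m2, e⟩ ha hb
    have : Adj v a b := ⟨v1 ++ m1, m2, by rw [hv, hq, e]; simp⟩
    obtain ⟨k1, k2, e'⟩ := h.symm.adj this
    rcases adj_append e' with h' | h' | h'
    · exact ha h'.1
    · exact hd b hb h'.2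
    · exact hd b hb (by rw [h'.2]; simp)
  have hpq : Adj v p q := ⟨l1, l2, by rw [hv, hp, hq]; simp⟩
  obtain ⟨k1, k2, e'⟩ := h.symm.adj hpq
  have hu : u1 = k1 ++ [p] ∧ u2 = q :: k2 := by
    rcases adj_append e' with h' | h' | h'
    · exact absurd h'.2 hqn
    · exact absurd h'.1 (hd p hpin)
    · exact h'
  refine ⟨v1, v2, hv, hv1ne, hv2ne, fun x hx hx' => hout x hx' (hin x hx), ?_, ?_⟩
  · intro Q hQ hP g
    obtain ⟨z, _, _, hreg⟩ := hQ.cyc hn hP
    obtain ⟨y, hy⟩ := hreg (g p)
    let g' : α → Q := fun x => if x ∈ u1 then g x else y * g p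
    have := h Q hQ hP g'
    rw [hv, ev_append, ev_append] at this
    have e1 : ev g' u1 = ev g u1 := ev_congr fun x hx => by simp [g', hx]
    have e2 : ev g' v1 = ev g v1 := ev_congr fun x hx => by simp [g', hin x hx]
    have hpe : ((g p : Q) : WithOne Q) * (y * g p : Q) = g p := by
      rw [← WithOne.coe_mul, ← mul_assoc, hy]
    rw [e1, e2, ev_absorb_right (e := y * g p), ev_absorb_right (e := y * g p)] at this
    · exact this
    · rw [hp]; simp only [ev_append, ev_cons, ev_nil, mul_one, mul_assoc, hpe]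
    · intro x hx; simp [g', hout x hx]
    · rw [hu.1]; simp only [ev_append, ev_cons, ev_nil, mul_one, mul_assoc, hpe]
    · intro x hx
      have : x ∉ u1 := fun hx' => hd x hx' hx
      simp [g', this]
  · intro Q hQ hP g
    obtain ⟨z, _, _, hreg⟩ := hQ.cyc hn hP
    obtain ⟨y, hy⟩ := hreg (g q)
    let g' : α → Q := fun x => if x ∈ u1 then g q * y else g x
    have := h Q hQ hP g'
    rw [hv, ev_append, ev_append] at this
    have e1 : ev g' u2 = ev g u2 := ev_congr fun x hx => by
      have : x ∉ u1 := fun hx' => hd x hx' hx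
      simp [g', this]
    have e2 : ev g' v2 = ev g v2 := ev_congr fun x hx => by simp [g', hout x hx]
    have hpe : ((g q * y : Q) : WithOne Q) * (g q : Q) = g q := by
      rw [← WithOne.coe_mul, hy]
    rw [e1, e2, ev_absorb_left (e := g q * y), ev_absorb_left (e := g q * y)] at this
    · exact this
    · rw [hq]; simp only [ev_cons, ← mul_assoc, hpe]
    · intro x hx; simp [g', hin x hx]
    · rw [hu.2]; simp only [ev_cons, ← mul_assoc, hpe]
    · intro x hx; simp [g', hx]

end

section Regular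
variable {S : Type*} [Semigroup S] {n : ℕ}

/-- Regular elements of a monoid. -/
def Reg {M : Type*} [Monoid M] (x : M) : Prop := ∃ r : M, x * r * x = x

theorem pow_rep {M : Type*} [Monoid M] {u y : M} (h : u * y = u ^ (n + 1) * y) :
    u * y = u ^ (2 * n + 1) * y := by
  calc u * y = u ^ (n + 1) * y := h
    _ = u ^ n * (u * y) := by rw [pow_succ, mul_assoc]
    _ = u ^ n * (u ^ (n + 1) * y) := by rw [← h]
    _ = u ^ (2 * n + 1) * y := by rw [← mul_assoc, ← pow_add]; congr 2; ring

theorem reg_cycle (hn : 1 ≤ n) (h1 : P1 n S) (h2 : P2 n S) (y : S) (w : WithOne S) :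
    Reg ((y : WithOne S) * w * y) := by
  have h := pow_rep (h2.withOne h1 y w)
  obtain ⟨m, rfl⟩ : ∃ m, n = m + 1 := ⟨n - 1, by omega⟩
  refine ⟨w * ((y : WithOne S) * w) ^ (2 * m), ?_⟩
  conv_rhs => rw [h]
  rw [show 2 * (m + 1) + 1 = 1 + 1 + 2 * m + 1 by ring, pow_succ, pow_add, pow_add, pow_one]
  simp only [mul_assoc]

theorem reg_extend (hn : 1 ≤ n) (h1 : P1 n S) (h2 : P2 n S) (y : S) (P w w' : WithOne S)
    (hA : Reg (P * y * w)) : Reg (P * y * w * w' * y) := by
  obtain ⟨r, hr⟩ := hA
  have h := pow_rep (h2.withOne h1 y (w * r * P * y * w * w'))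
  obtain ⟨m, rfl⟩ : ∃ m, n = m + 1 := ⟨n - 1, by omega⟩
  set γ : WithOne S := (y : WithOne S) * (w * r * P * y * w * w') with hγ
  have hP : P * γ = P * y * w * w' := by
    rw [hγ]
    conv_rhs => rw [← hr]
    simp only [mul_assoc]
  refine ⟨w * r * P * y * w * w' * γ ^ (2 * m) * y * w * r, ?_⟩
  calc P * y * w * w' * y * (w * r * P * y * w * w' * γ ^ (2 * m) * y * w * r)
        * (P * y * w * w' * y)
      = (P * y * w * w') * (γ * γ ^ (2 * m) * γ) * y := by
        rw [hγ]; simp only [mul_assoc]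
    _ = P * (γ ^ (2 * (m + 1) + 1) * y) := by
        rw [← hP, show 2 * (m + 1) + 1 = 1 + 1 + 2 * m + 1 by ring, pow_succ, pow_add, pow_add,
          pow_one]
        simp only [mul_assoc]
    _ = P * y * w * w' * y := by rw [← h, ← mul_assoc, hP]

theorem reg_of_nosplit {α : Type*} (hn : 1 ≤ n) (h1 : P1 n S) (h2 : P2 n S) (f : α → S)
    (u : List α)
    (hns : ∀ u1 u2, u = u1 ++ u2 → u1 ≠ [] → u2 ≠ [] → ∃ x ∈ u1, x ∈ u2) :
    ∀ (k : ℕ) (A B : List α), B.length = k → u = A ++ B → A ≠ [] →
      ((∃ x, A = [x]) ∨ Reg (ev f A)) → B = [] ∨ Reg (ev f u) := by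
  intro k
  induction k using Nat.strong_induction_on with
  | _ k ih =>
    intro A B hk hu hA hreg
    by_cases hB : B = []
    · exact Or.inl hB
    right
    obtain ⟨y, hyA, hyB⟩ := hns A B hu hA hB
    obtain ⟨P, w, rfl⟩ := List.append_of_mem hyA
    obtain ⟨w', B', rfl⟩ := List.append_of_mem hyB
    have hreg' : Reg (ev f (P ++ y :: w ++ w' ++ [y])) := by
      rcases hreg with ⟨x, hx⟩ | hreg
      · have hP : P = [] := by
          rcases P with _ | ⟨a, P⟩
          · rfl
          · simp at hx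
        subst hP
        have := reg_cycle hn h1 h2 (f y) (ev f w * ev f w')
        simpa only [ev_append, ev_cons, ev_nil, mul_one, mul_assoc, List.nil_append] using this
      · have := reg_extend hn h1 h2 (f y) (ev f P) (ev f w) (ev f w')
          (by simpa only [ev_append, ev_cons, mul_assoc] using hreg)
        simpa only [ev_append, ev_cons, ev_nil, mul_one, mul_assoc] using this
    rcases ih B'.length (by rw [← hk]; simp; omega) (P ++ y :: w ++ w' ++ [y]) B' rfl
      (by rw [hu]; simp) (by simp) (Or.inr hreg') with h | h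
    · rw [hu, h]
      simpa only [List.append_assoc] using hreg'
    · exact h

theorem reg_coe {a : S} (h : Reg (a : WithOne S)) : ∃ a' : S, a * a' * a = a := by
  obtain ⟨r, hr⟩ := h
  induction r using WithOne.recOneCoe with
  | one =>
    rw [mul_one, ← WithOne.coe_mul, WithOne.coe_inj] at hr
    exact ⟨a, by rw [hr, hr]⟩
  | coe r =>
    rw [← WithOne.coe_mul, ← WithOne.coe_mul, WithOne.coe_inj] at hr
    exact ⟨r, hr⟩

end Regular

theorem basis {S : Type} [Semigroup S] {n : ℕ} {α : Type} (hn : 1 ≤ n) (h1 : P1 n S)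
    (h2 : P2 n S) (hL : PL S) (hR : PL Sᵐᵒᵖ) (f : α → S) :
    ∀ (k : ℕ) (u v : List α), u.length = k → u ≠ [] → RSL n u v → ev f u = ev f v := by
  intro k
  induction k using Nat.strong_induction_on with
  | _ k ih =>
    intro u v hk hu h
    by_cases hs : ∃ u1 u2, u = u1 ++ u2 ∧ u1 ≠ [] ∧ u2 ≠ [] ∧ ∀ x ∈ u1, x ∉ u2
    · obtain ⟨u1, u2, rfl, hu1, hu2, hd⟩ := hs
      obtain ⟨v1, v2, rfl, _, _, _, r1, r2⟩ := split_transfer hn h hu1 hu2 hd
      have l1 := List.length_pos_iff.mpr hu1
      have l2 := List.length_pos_iff.mpr hu2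
      rw [List.length_append] at hk
      rw [ev_append, ev_append, ih u1.length (by omega) u1 v1 rfl hu1 r1,
        ih u2.length (by omega) u2 v2 rfl hu2 r2]
    · have hv := h.ne_nil hu
      have hsv : ¬ ∃ v1 v2, v = v1 ++ v2 ∧ v1 ≠ [] ∧ v2 ≠ [] ∧ ∀ x ∈ v1, x ∉ v2 := by
        rintro ⟨v1, v2, rfl, hv1, hv2, hd⟩
        obtain ⟨u1, u2, e, a, b, c, _, _⟩ := split_transfer hn h.symm hv1 hv2 hd
        exact hs ⟨u1, u2, e, a, b, c⟩
      have hns : ∀ w : List α,
          (¬ ∃ u1 u2, w = u1 ++ u2 ∧ u1 ≠ [] ∧ u2 ≠ [] ∧ ∀ x ∈ u1, x ∉ u2) →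
          ∀ u1 u2, w = u1 ++ u2 → u1 ≠ [] → u2 ≠ [] → ∃ x ∈ u1, x ∈ u2 := by
        intro w hw u1 u2 e a b
        by_contra hcon
        push Not at hcon
        exact hw ⟨u1, u2, e, a, b, hcon⟩
      obtain ⟨x, l, rfl⟩ := List.exists_cons_of_ne_nil hu
      obtain ⟨y, l', rfl⟩ := List.exists_cons_of_ne_nil hv
      have hxy : x = y := by simpa using h.head hu
      subst hxy
      have hsingle : ∀ {l l' : List α}, RSL n (x :: l) (x :: l') → l' = [] → l = [] := by
        intro l l' h hl'
        subst hl'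
        rcases l with _ | ⟨b, l⟩
        · rfl
        · obtain ⟨k1, k2, e⟩ := h.adj (p := x) (q := b) ⟨[], l, rfl⟩
          have := congrArg List.length e
          simp at this
          omega
      rcases reg_of_nosplit hn h1 h2 f _ (hns _ hs) _ [x] l rfl rfl (by simp)
        (Or.inl ⟨x, rfl⟩) with hl | ru
      · rw [hl, hsingle h.symm hl]
      rcases reg_of_nosplit hn h1 h2 f _ (hns _ hsv) _ [x] l' rfl rfl (by simp)
        (Or.inl ⟨x, rfl⟩) with hl | rv
      · rw [hl, hsingle h hl]
      rw [← coe_lift f ⟨x, l⟩] at ru ⊢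
      rw [← coe_lift f ⟨x, l'⟩] at rv ⊢
      obtain ⟨a', ha⟩ := reg_coe ru
      obtain ⟨b', hb⟩ := reg_coe rv
      congr 1
      refine kub hn h1 h2 hL hR ha hb ?_
      intro Q hQ hP φ
      apply WithOne.coe_injective
      have := h Q hQ hP (fun i => φ (f i))
      rw [← ev_map_hom, ← ev_map_hom, ← coe_lift f ⟨x, l⟩, ← coe_lift f ⟨x, l'⟩] at this
      exact this

theorem mem_RS_of {S : Semigrp.{0}} {n : ℕ} (hn : 1 ≤ n) (h1 : P1 n S)
    (h2 : P2 n S) (hL : PL S) (hR : PL (S : Type)ᵐᵒᵖ) : S ∈ RS n := by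
  rintro ⟨u, v⟩ he f
  apply WithOne.coe_injective
  rw [coe_lift, coe_lift]
  refine basis hn h1 h2 hL hR f _ _ _ rfl (by simp) ?_
  intro Q hQ hP g
  rw [← coe_lift, ← coe_lift]
  exact congrArg _ (he Q ⟨hQ, hP⟩ g)

end Pool.Agent.MP_634f99_al.H46
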