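import Mathlib
import Pool.Agent.MP_634f99_al.H46.Words

/-! Finite models of the generating semigroups and their matrix realisations. -/

namespace Pool.Agent.MP_634f99_al.H46

theorem sat_of_equiv {S T : Type} [Semigroup S] [Semigroup T] (φ : S ≃* T)
    (e : FreeSemigroup ℕ × FreeSemigroup ℕ) (h : Sat (Semigrp.of S) e) :
    Sat (Semigrp.of T) e := by
  intro f
  have key : ∀ w : FreeSemigroup ℕ,
      FreeSemigroup.lift f w = φ (FreeSemigroup.lift (fun i => φ.symm (f i)) w) := by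
    intro w
    induction w using FreeSemigroup.recOnMul with
    | ih1 x => simp
    | ih2 x y hx hy => rw [map_mul, map_mul, map_mul, ← hx, ← hy]
  rw [key, key]
  exact congrArg φ (h _)

theorem sat_matSg_iff {T : Type} [Semigroup T] (G : Set (Matrix (Fin 4) (Fin 4) ℤ))
    (ι : T →ₙ* Matrix (Fin 4) (Fin 4) ℤ) (hinj : Function.Injective ι)
    (hG : ∀ g ∈ G, ∃ t, ι t = g) (hT : ∀ t, ι t ∈ Subsemigroup.closure G)
    (e : FreeSemigroup ℕ × FreeSemigroup ℕ) : Sat (matSg G) e ↔ Sat (Semigrp.of T) e := by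
  let ψ : T →ₙ* Subsemigroup.closure G := ι.codRestrict _ hT
  have hb : Function.Bijective ψ := by
    constructor
    · intro a b h
      exact hinj (congrArg Subtype.val h)
    · rintro ⟨m, hm⟩
      have : ∃ t, ι t = m := by
        induction hm using Subsemigroup.closure_induction with
        | mem x hx => exact hG x hx
        | mul x y _ _ hx hy =>
          obtain ⟨a, rfl⟩ := hx
          obtain ⟨b, rfl⟩ := hy
          exact ⟨a * b, map_mul _ _ _⟩
      obtain ⟨t, ht⟩ := this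
      exact ⟨t, Subtype.ext ht⟩
  let φ : T ≃* Subsemigroup.closure G := MulEquiv.ofBijective ψ hb
  exact ⟨sat_of_equiv φ.symm e, sat_of_equiv φ e⟩

theorem mem_of_gens {T β : Type} [Semigroup T] {G : Set (Matrix (Fin 4) (Fin 4) ℤ)}
    (ι : T →ₙ* Matrix (Fin 4) (Fin 4) ℤ) (e : β → T) (he : ∀ b, ι (e b) ∈ G)
    (hgen : ∀ t : T, ∃ w : FreeSemigroup β, FreeSemigroup.lift e w = t) (t : T) :
    ι t ∈ Subsemigroup.closure G := by
  obtain ⟨w, rfl⟩ := hgen t
  induction w using FreeSemigroup.recOnMul with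
  | ih1 x => exact Subsemigroup.subset_closure (he x)
  | ih2 x y hx hy => rw [map_mul, map_mul]; exact Subsemigroup.mul_mem _ hx hy

/-- Finite model of the three-element nilpotent semigroup. -/
inductive MN : Type
  | x | xx | zero
  deriving DecidableEq

instance : Fintype MN := ⟨{.x, .xx, .zero}, by intro t; cases t <;> simp⟩

/-- Its multiplication. -/
def MN.mul : MN → MN → MN
  | .x, .x => .xx
  | _, _ => .zero

instance : Semigroup MN where
  mul := MN.mul
  mul_assoc := by decide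

/-- Its generator. -/
def eN : Unit → MN := fun _ => .x

theorem eN_gen (t : MN) : ∃ w : FreeSemigroup Unit, FreeSemigroup.lift eN w = t := by
  cases t
  · exact ⟨⟨(), []⟩, rfl⟩
  · exact ⟨⟨(), [()]⟩, rfl⟩
  · exact ⟨⟨(), [(), ()]⟩, rfl⟩

/-- Its matrices. -/
def MN.mat : MN → Matrix (Fin 4) (Fin 4) ℤ
  | .x => E 0 1 + E 1 2
  | .xx => E 0 2
  | .zero => 0

/-- The matrix representation. -/
def ιN : MN →ₙ* Matrix (Fin 4) (Fin 4) ℤ where
  toFun := MN.mat
  map_mul' := by decide +kernel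

theorem sat_N3 (e : FreeSemigroup ℕ × FreeSemigroup ℕ) : Sat N3 e ↔ Sat (Semigrp.of MN) e := by
  refine sat_matSg_iff _ ιN (by intro a b; revert a b; decide +kernel) ?_
    (mem_of_gens ιN eN (fun _ => rfl) eN_gen) e
  rintro _ rfl
  exact ⟨.x, rfl⟩

/-- Finite model of the six-element nilpotent semigroup. -/
inductive MD : Type
  | x | y | xy | yx | xyx | zero
  deriving DecidableEq

instance : Fintype MD := ⟨{.x, .y, .xy, .yx, .xyx, .zero}, by intro t; cases t <;> simp⟩

/-- Its multiplication. -/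
def MD.mul : MD → MD → MD
  | .x, .y => .xy
  | .y, .x => .yx
  | .xy, .x => .xyx
  | .x, .yx => .xyx
  | _, _ => .zero

instance : Semigroup MD where
  mul := MD.mul
  mul_assoc := by decide

/-- Its generators. -/
def eD : Fin 2 → MD := ![.x, .y]

theorem eD_gen (t : MD) : ∃ w : FreeSemigroup (Fin 2), FreeSemigroup.lift eD w = t := by
  cases t
  · exact ⟨⟨0, []⟩, rfl⟩
  · exact ⟨⟨1, []⟩, rfl⟩
  · exact ⟨⟨0, [1]⟩, rfl⟩
  · exact ⟨⟨1, [0]⟩, rfl⟩
  · exact ⟨⟨0, [1, 0]⟩, rfl⟩
  · exact ⟨⟨0, [0]⟩, rfl⟩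

/-- Its matrices. -/
def MD.mat : MD → Matrix (Fin 4) (Fin 4) ℤ
  | .x => E 0 1 + E 2 3
  | .y => E 1 2
  | .xy => E 0 2
  | .yx => E 1 3
  | .xyx => E 0 3
  | .zero => 0

/-- The matrix representation. -/
def ιD : MD →ₙ* Matrix (Fin 4) (Fin 4) ℤ where
  toFun := MD.mat
  map_mul' := by decide +kernel

theorem sat_Dxyx (e : FreeSemigroup ℕ × FreeSemigroup ℕ) :
    Sat Dxyx e ↔ Sat (Semigrp.of MD) e := by
  refine sat_matSg_iff _ ιD (by intro a b; revert a b; decide +kernel) ?_
    (mem_of_gens ιD eD ?_ eD_gen) e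
  · rintro _ (rfl | rfl)
    · exact ⟨.x, rfl⟩
    · exact ⟨.y, rfl⟩
  · intro b
    fin_cases b
    · exact Or.inl rfl
    · exact Or.inr rfl

/-- Finite model of the ten-element semigroup. -/
inductive MW : Type
  | zero : MW
  | a : MW
  | el : Bool → Bool → Bool → MW
  deriving DecidableEq, Fintype

/-- Its multiplication. -/
def MW.mul : MW → MW → MW
  | .a, .el u k c => if u then .zero else .el true k c
  | .el u k c, .a => if c then .zero else .el u k true
  | .el u k c, .el u' _ c' => if c = u' then .zero else .el u k c'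
  | _, _ => .zero

instance : Semigroup MW where
  mul := MW.mul
  mul_assoc := by decide +kernel

/-- Its generators. -/
def eW : Fin 3 → MW := ![.a, .el false false false, .el false true false]

theorem eW_gen (t : MW) : ∃ w : FreeSemigroup (Fin 3), FreeSemigroup.lift eW w = t := by
  rcases t with _ | _ | ⟨_ | _, _ | _, _ | _⟩
  · exact ⟨⟨0, [0]⟩, rfl⟩
  · exact ⟨⟨0, []⟩, rfl⟩
  · exact ⟨⟨1, []⟩, rfl⟩
  · exact ⟨⟨1, [0]⟩, rfl⟩
  · exact ⟨⟨2, []⟩, rfl⟩
  · exact ⟨⟨2, [0]⟩, rfl⟩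
  · exact ⟨⟨0, [1]⟩, rfl⟩
  · exact ⟨⟨0, [1, 0]⟩, rfl⟩
  · exact ⟨⟨0, [2]⟩, rfl⟩
  · exact ⟨⟨0, [2, 0]⟩, rfl⟩

/-- Its matrices. -/
def MW.mat : MW → Matrix (Fin 4) (Fin 4) ℤ
  | .zero => 0
  | .a => E 0 2 + E 1 3
  | .el true false false => E 0 0 + E 0 1
  | .el true true false => E 1 0 + E 1 1
  | .el false false false => E 2 0 + E 2 1
  | .el false true false => E 3 0 + E 3 1
  | .el true false true => E 0 2 + E 0 3
  | .el true true true => E 1 2 + E 1 3
  | .el false false true => E 2 2 + E 2 3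
  | .el false true true => E 3 2 + E 3 3

/-- The matrix representation. -/
def ιW : MW →ₙ* Matrix (Fin 4) (Fin 4) ℤ where
  toFun := MW.mat
  map_mul' := by decide +kernel

theorem ιW_inj : Function.Injective ιW := by intro s t; revert s t; decide +kernel

theorem sat_Wl (e : FreeSemigroup ℕ × FreeSemigroup ℕ) :
    Sat Wl e ↔ Sat (Semigrp.of MW) e := by
  refine sat_matSg_iff _ ιW ιW_inj ?_ (mem_of_gens ιW eW ?_ eW_gen) e
  · rintro _ (rfl | rfl | rfl)
    · exact ⟨.a, rfl⟩
    · exact ⟨.el false false false, rfl⟩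
    · exact ⟨.el false true false, rfl⟩
  · intro b
    fin_cases b
    · exact Or.inl rfl
    · exact Or.inr (Or.inl rfl)
    · exact Or.inr (Or.inr rfl)

/-- The matrix representation of the dual. -/
def ιW' : MWᵐᵒᵖ →ₙ* Matrix (Fin 4) (Fin 4) ℤ where
  toFun := fun t => (ιW t.unop).transpose
  map_mul' := fun x y => by rw [MulOpposite.unop_mul, map_mul, Matrix.transpose_mul]

theorem eW_gen' (t : MWᵐᵒᵖ) :
    ∃ w : FreeSemigroup (Fin 3), FreeSemigroup.lift (fun i => MulOpposite.op (eW i)) w = t := by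
  obtain ⟨w, hw⟩ := eW_gen t.unop
  have : t = MulOpposite.op (FreeSemigroup.lift eW w) := by rw [hw]; rfl
  rw [this]
  clear this hw
  induction w using FreeSemigroup.recOnMul with
  | ih1 x => exact ⟨FreeSemigroup.of x, rfl⟩
  | ih2 x y hx hy =>
    obtain ⟨w1, h1⟩ := hx
    obtain ⟨w2, h2⟩ := hy
    exact ⟨w2 * w1, by rw [map_mul, map_mul, h1, h2, MulOpposite.op_mul]⟩

theorem sat_Wr (e : FreeSemigroup ℕ × FreeSemigroup ℕ) :
    Sat Wr e ↔ Sat (Semigrp.of MWᵐᵒᵖ) e := by
  have t0 : ιW' (MulOpposite.op .a) = E 2 0 + E 3 1 := by decide +kernel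
  have t1 : ιW' (MulOpposite.op (.el false false false)) = E 0 2 + E 1 2 := by decide +kernel
  have t2 : ιW' (MulOpposite.op (.el false true false)) = E 0 3 + E 1 3 := by decide +kernel
  refine sat_matSg_iff _ ιW' ?_ ?_
    (mem_of_gens ιW' (fun i => MulOpposite.op (eW i)) ?_ eW_gen') e
  · intro a b h
    exact MulOpposite.unop_injective (ιW_inj (Matrix.transpose_injective h))
  · rintro _ (rfl | rfl | rfl)
    · exact ⟨_, t0⟩
    · exact ⟨_, t1⟩
    · exact ⟨_, t2⟩
  · intro b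
    fin_cases b
    · exact Or.inl t0
    · exact Or.inr (Or.inl t1)
    · exact Or.inr (Or.inr t2)

end Pool.Agent.MP_634f99_al.H46
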