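import Mathlib
import Pool.Agent.MP_634f99_al.H46.Models

/-! A variety properly containing `RS n` contains one of the listed generators. -/

namespace Pool.Agent.MP_634f99_al.H46

/-- The identity `u = v` holds in every member of `V`. -/
def Holds (V : Set Semigrp.{0}) {α : Type} (u v : List α) : Prop :=
  ∀ S ∈ V, ∀ f : α → S, ev f u = ev f v

theorem subset_gen (C : Set Semigrp.{0}) : C ⊆ gen C := fun S hS _ he => he S hS

theorem gen_isVariety (C : Set Semigrp.{0}) : IsVariety (gen C) := ⟨_, rfl⟩

theorem gen_subset {C V : Set Semigrp.{0}} (hV : IsVariety V) (h : C ⊆ V) : gen C ⊆ V := by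
  obtain ⟨E, rfl⟩ := hV
  intro S hS e he
  exact hS e fun T hT => h hT e he

theorem Holds.rsl {n : ℕ} {V : Set Semigrp.{0}} (hV : RS n ⊆ V) {α : Type} {u v : List α}
    (h : Holds V u v) : RSL n u v :=
  fun Q hQ hP f => h Q (hV (subset_gen _ ⟨hQ, hP⟩)) f

theorem Holds.symm {V : Set Semigrp.{0}} {α : Type} {u v : List α} (h : Holds V u v) :
    Holds V v u := fun S hS f => (h S hS f).symm

theorem lift_lift {α β S : Type*} [Semigroup S] (e : β → S) (g : α → FreeSemigroup β)
    (w : FreeSemigroup α) : FreeSemigroup.lift e (FreeSemigroup.lift g w)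
      = FreeSemigroup.lift (fun i => FreeSemigroup.lift e (g i)) w := by
  induction w using FreeSemigroup.recOnMul with
  | ih1 x => simp
  | ih2 x y hx hy => rw [map_mul, map_mul, map_mul, hx, hy]

theorem mem_of_holds {V : Set Semigrp.{0}} (hV : IsVariety V) {T β : Type} [Semigroup T]
    (e : β → T) (hgen : ∀ t : T, ∃ w : FreeSemigroup β, FreeSemigroup.lift e w = t)
    (h : ∀ u v : List β, u ≠ [] → v ≠ [] → Holds V u v → ev e u = ev e v) :
    Semigrp.of T ∈ V := by
  obtain ⟨E, rfl⟩ := hV
  rintro ⟨u, v⟩ he f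
  choose g hg using fun i => hgen (f i)
  have hf : f = fun i => FreeSemigroup.lift e (g i) := funext fun i => (hg i).symm
  rw [hf, ← lift_lift, ← lift_lift]
  apply WithOne.coe_injective
  rw [coe_lift, coe_lift]
  refine h _ _ (by simp) (by simp) ?_
  intro S hS f'
  rw [← coe_lift, ← coe_lift, lift_lift, lift_lift]
  exact congrArg _ (hS _ he _)

theorem ev_unit {S : Type*} [Semigroup S] (f : Unit → S) (l : List Unit) :
    ev f l = (f () : WithOne S) ^ l.length := by
  induction l with
  | nil => simp
  | cons x l ih => rw [ev_cons, ih, List.length_cons, pow_succ']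

theorem ev_monoid {α M : Type*} [Monoid M] (f : α → M) (l : List α) :
    WithOne.lift (MulHom.id M) (ev f l) = (l.map f).prod := by
  induction l with
  | nil => simp
  | cons x l ih => rw [ev_cons, map_mul, ih]; simp

theorem cyc_pow (m : ℕ) (g : Multiplicative (ZMod m)) : g ^ m = 1 := by
  apply Multiplicative.toAdd.injective
  simp

theorem cycZero_zeroSimple (m : ℕ) :
    ZeroSimple (Semigrp.of (WithZero (Multiplicative (ZMod m)))) := by
  refine zeroSimple_of_div (Q := Semigrp.of (WithZero (Multiplicative (ZMod m)))) 0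
    (by simp) ⟨1, one_ne_zero⟩ ?_
  intro a ha b
  exact ⟨b * a⁻¹, 1, by rw [mul_one, inv_mul_cancel_right₀ ha]⟩

theorem cycZero_P1 (m : ℕ) : P1 m (WithZero (Multiplicative (ZMod m))) := by
  apply P1.withZero
  intro x
  rw [sp_monoid, pow_succ, pow_succ, cyc_pow, one_mul]

theorem RSL.weight {n : ℕ} {α : Type} {u v : List α} (h : RSL n u v) (w : α → ℕ) :
    (u.map w).sum ≡ (v.map w).sum [MOD n] := by
  have := h _ (cycZero_zeroSimple n) (cycZero_P1 n)
    (fun i => ((Multiplicative.ofAdd (w i : ZMod n) : Multiplicative (ZMod n)) :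
      WithZero (Multiplicative (ZMod n))))
  have h2 := congrArg (WithOne.lift (MulHom.id (WithZero (Multiplicative (ZMod n))))) this
  rw [ev_monoid, ev_monoid] at h2
  have key : ∀ l : List α, (l.map (fun i => ((Multiplicative.ofAdd (w i : ZMod n) :
      Multiplicative (ZMod n)) : WithZero (Multiplicative (ZMod n))))).prod
      = ((Multiplicative.ofAdd (((l.map w).sum : ℕ) : ZMod n) : Multiplicative (ZMod n)) :
        WithZero (Multiplicative (ZMod n))) := by
    intro l
    induction l with
    | nil => simp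
    | cons x l ih => rw [List.map_cons, List.prod_cons, ih, ← WithZero.coe_mul]; simp
  rw [key, key, WithZero.coe_inj] at h2
  exact (ZMod.natCast_eq_natCast_iff _ _ _).mp (Multiplicative.ofAdd.injective h2)

theorem P1_iff {S : Type*} [Semigroup S] {m : ℕ} :
    P1 m S ↔ ∀ x : S, (x : WithOne S) ^ 2 = (x : WithOne S) ^ (m + 2) := by
  constructor
  · intro h x; exact h.withOne x
  · intro h x
    apply WithOne.coe_injective
    rw [coe_sp, WithOne.coe_mul, ← sq, h]

theorem single_of_rsl {n : ℕ} {α : Type} {x : α} {v : List α} (h : RSL n [x] v) : v = [x] := by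
  obtain ⟨l, rfl⟩ := List.head?_eq_some_iff.mp (h.head (by simp)).symm
  rcases l with _ | ⟨b, l⟩
  · rfl
  · obtain ⟨k1, k2, e⟩ := h.symm.adj (p := x) (q := b) ⟨[], l, rfl⟩
    have := congrArg List.length e
    simp at this
    omega

theorem force_N {n : ℕ} {V : Set Semigrp.{0}} (hV : IsVariety V) (hRS : RS n ⊆ V) :
    (∃ m, 1 ≤ m ∧ ∀ S ∈ V, P1 m S) ∨ Semigrp.of MN ∈ V := by
  by_contra hcon
  rw [not_or] at hcon
  apply hcon.2
  refine mem_of_holds hV eN eN_gen ?_
  have key : ∀ u v : List Unit, u ≠ [] → u.length < v.length → Holds V u v →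
      ev eN u = ev eN v := by
    intro u v hu hlt h
    have h3 : ∀ k, ((MN.x : MN) : WithOne MN) ^ (k + 3) = (MN.zero : MN) := by
      intro k
      induction k with
      | zero => rfl
      | succ k ih => rw [show k + 1 + 3 = (k + 3) + 1 by ring, pow_succ, ih]; rfl
    rcases u with _ | ⟨a, _ | ⟨b, _ | ⟨c, u⟩⟩⟩
    · exact absurd rfl hu
    · rw [single_of_rsl (h.rsl hRS)]
    · exfalso
      apply hcon.1
      refine ⟨v.length - 2, by simp at hlt; omega, ?_⟩
      intro S hS
      rw [P1_iff]
      intro x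
      have := h S hS (fun _ => x)
      rw [ev_unit, ev_unit] at this
      simp only [List.length_cons, List.length_nil] at this hlt
      rw [show v.length - 2 + 2 = v.length by omega]
      exact this
    · rw [ev_unit, ev_unit]
      simp only [List.length_cons] at hlt ⊢
      obtain ⟨k, hk⟩ : ∃ k, v.length = k + 3 := ⟨v.length - 3, by omega⟩
      rw [hk]
      exact (h3 u.length).trans (h3 k).symm
  intro u v hu hv h
  rcases lt_trichotomy u.length v.length with hl | hl | hl
  · exact key u v hu hl h
  · rw [ev_unit, ev_unit, hl]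
  · exact (key v u hv hl h.symm).symm

theorem cyc_gen (m : ℕ) (hm : 1 ≤ m) (t : Multiplicative (ZMod m)) :
    ∃ w : FreeSemigroup Unit,
      FreeSemigroup.lift (fun _ => Multiplicative.ofAdd (1 : ZMod m)) w = t := by
  have : NeZero m := ⟨by omega⟩
  refine ⟨⟨(), List.replicate (t.toAdd.val + m - 1) ()⟩, ?_⟩
  apply WithOne.coe_injective
  rw [coe_lift, ev_unit]
  have := coe_sp (Multiplicative.ofAdd (1 : ZMod m)) (t.toAdd.val + m - 1)
  simp only [List.length_cons, List.length_replicate]
  rw [← this, sp_monoid, show t.toAdd.val + m - 1 + 1 = t.toAdd.val + m by omega, pow_add,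
    cyc_pow, mul_one]
  congr 1
  apply Multiplicative.toAdd.injective
  simp

theorem force_Z {n : ℕ} (hn : 1 ≤ n) {V : Set Semigrp.{0}} (hV : IsVariety V) (hRS : RS n ⊆ V)
    (hm : ∃ m, 1 ≤ m ∧ ∀ S ∈ V, P1 m S) :
    (∀ S ∈ V, P1 n S) ∨ ∃ p : ℕ, p.Prime ∧ Cyc (p * n) ∈ V := by
  classical
  let m0 := Nat.find hm
  have hm0 : 1 ≤ m0 ∧ ∀ S ∈ V, P1 m0 S := Nat.find_spec hm
  have hmin : ∀ k, k < m0 → (∀ S ∈ V, P1 k S) → k = 0 := by
    intro k hk h
    by_contra h0
    exact Nat.find_min hm hk ⟨by omega, h⟩
  have hdvd : n ∣ m0 := by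
    have h : Holds V (List.replicate 2 ()) (List.replicate (m0 + 2) ()) := by
      intro S hS f
      rw [ev_unit, ev_unit, List.length_replicate, List.length_replicate]
      exact (hm0.2 S hS).withOne _
    have := (h.rsl hRS).weight (fun _ => 1)
    simp only [List.map_replicate, List.sum_replicate, smul_eq_mul, mul_one] at this
    have h2 := (Nat.modEq_iff_dvd' (by omega)).mp this
    simpa using h2
  obtain ⟨d, hd⟩ := hdvd
  by_cases hd1 : d = 1
  · left
    rw [hd1, mul_one] at hd
    rw [← hd]
    exact hm0.2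
  right
  refine ⟨d.minFac, Nat.minFac_prime hd1, ?_⟩
  have hpos : 1 ≤ d.minFac * n := Nat.mul_pos (Nat.minFac_pos d) hn
  have hdiv : d.minFac * n ∣ m0 := by
    rw [hd, mul_comm]
    exact Nat.mul_dvd_mul_left _ (Nat.minFac_dvd d)
  refine mem_of_holds hV _ (cyc_gen _ hpos) ?_
  have key : ∀ u v : List Unit, u.length ≤ v.length → Holds V u v →
      m0 ∣ v.length - u.length := by
    intro u v hle h
    obtain ⟨δ, hδ⟩ := Nat.exists_eq_add_of_le hle
    rw [hδ, Nat.add_sub_cancel_left]
    apply Nat.dvd_of_mod_eq_zero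
    apply hmin _ (Nat.mod_lt _ hm0.1)
    intro S hS
    rw [P1_iff]
    intro x
    have h1 := h S hS (fun _ => x)
    rw [ev_unit, ev_unit, hδ] at h1
    have hp := pow_period (hm0.2 S hS).withOne (x : WithOne S)
    have hle2 : u.length ≤ u.length * m0 := Nat.le_mul_of_pos_right _ hm0.1
    obtain ⟨c, hc⟩ := Nat.exists_eq_add_of_le hle2
    calc (x : WithOne S) ^ 2 = x ^ (2 + u.length * m0) := (hp 2 _ le_rfl).symm
      _ = x ^ u.length * x ^ (c + 2) := by rw [hc, ← pow_add]; congr 1; ring
      _ = x ^ (u.length + δ) * x ^ (c + 2) := by rw [h1]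
      _ = x ^ ((δ % m0 + 2) + (δ / m0 + u.length) * m0) := by
        rw [← pow_add, add_mul, hc]
        congr 1
        have := Nat.mod_add_div' δ m0
        omega
      _ = x ^ (δ % m0 + 2) := hp _ _ (by omega)
  have key2 : ∀ u v : List Unit, u.length ≤ v.length → Holds V u v →
      ev (fun _ => Multiplicative.ofAdd (1 : ZMod (d.minFac * n))) u
        = ev (fun _ => Multiplicative.ofAdd (1 : ZMod (d.minFac * n))) v := by
    intro u v hle h
    obtain ⟨c, hc⟩ := hdiv.trans (key u v hle h)
    have hv : v.length = u.length + d.minFac * n * c := by omega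
    rw [ev_unit, ev_unit, hv, pow_add]
    rcases u with _ | ⟨a, u⟩
    · have := h.symm.rsl hRS
      by_cases hv0 : v = []
      · subst hv0
        have : d.minFac * n * c = 0 := by simpa using hv.symm
        rw [this]; simp
      · exact absurd rfl (this.ne_nil hv0)
    · rcases Nat.eq_zero_or_pos (d.minFac * n * c) with h0 | h0
      · rw [h0]; simp
      · obtain ⟨k, hk⟩ : ∃ k, d.minFac * n * c = k + 1 := ⟨d.minFac * n * c - 1, by omega⟩
        rw [List.length_cons, hk, ← coe_sp, ← coe_sp, ← WithOne.coe_mul, sp_monoid _ k, ← hk,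
          pow_mul, cyc_pow, one_pow, mul_one]
  intro u v _ _ h
  rcases le_total u.length v.length with hl | hl
  · exact key2 u v hl h
  · exact (key2 v u hl h.symm).symm

/-- The alternating word `(xy)^k x`. -/
def alt : ℕ → List (Fin 2)
  | 0 => [0]
  | k + 1 => 0 :: 1 :: alt k

theorem ev_alt {S : Type*} [Semigroup S] (f : Fin 2 → S) (k : ℕ) :
    ev f (alt k) = ((f 0 : WithOne S) * f 1) ^ k * f 0 := by
  induction k with
  | zero => simp [alt]
  | succ k ih => rw [alt, ev_cons, ev_cons, ih, pow_succ']; simp only [mul_assoc]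

theorem alt_weight (k : ℕ) : ((alt k).map ![0, 1]).sum = k := by
  induction k with
  | zero => simp [alt]
  | succ k ih => simp [alt, ih, add_comm]

theorem eq_alt : ∀ (k : ℕ) (l : List (Fin 2)), l.length = k →
    (∀ p, ¬ Adj (0 :: l) p p) → (0 :: l).getLast? = some 0 → ∃ j, 0 :: l = alt j := by
  intro k
  induction k using Nat.strong_induction_on with
  | _ k ih =>
    intro l hk hadj hlast
    rcases l with _ | ⟨a, _ | ⟨b, l⟩⟩
    · exact ⟨0, rfl⟩
    · exfalso
      simp at hlast
      subst hlast
      exact hadj 0 ⟨[], [], rfl⟩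
    · have ha : a = 1 := by
        by_contra h
        have : a = 0 := by omega
        subst this
        exact hadj 0 ⟨[], _, rfl⟩
      subst ha
      have hb : b = 0 := by
        by_contra h
        have : b = 1 := by omega
        subst this
        exact hadj 1 ⟨[0], _, rfl⟩
      subst hb
      obtain ⟨j, hj⟩ := ih l.length (by rw [← hk]; simp) l rfl
        (fun p ⟨l1, l2, e⟩ => hadj p ⟨0 :: 1 :: l1, l2, by rw [e]; rfl⟩)
        (by simpa using hlast)
      exact ⟨j + 1, by rw [alt, hj]⟩

instance decEqWithOne {S : Type*} [DecidableEq S] : DecidableEq (WithOne S) :=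
  inferInstanceAs (DecidableEq (Option S))

theorem evD_cases (l : List (Fin 2)) (hl : l ≠ []) : ev eD l = (MD.zero : MD) ∨
    l = [0] ∨ l = [1] ∨ l = [0, 1] ∨ l = [1, 0] ∨ l = [0, 1, 0] := by
  rcases l with _ | ⟨a, _ | ⟨b, _ | ⟨c, _ | ⟨d, l⟩⟩⟩⟩
  · exact absurd rfl hl
  · revert a; decide
  · revert a b; decide
  · revert a b c; decide
  · left
    have h4 : ∀ a b c d : MD, a * b * c * d = .zero := by decide
    have h0 : ∀ t : WithOne MD, ((MD.zero : MD) : WithOne MD) * t = (MD.zero : MD) := by
      intro t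
      induction t using WithOne.recOneCoe with
      | one => simp
      | coe t => rw [← WithOne.coe_mul]; rfl
    simp only [ev_cons, ← mul_assoc, ← WithOne.coe_mul, h4, h0]

theorem pair_of_rsl {n : ℕ} {α : Type} {x y : α} (hxy : x ≠ y) {v : List α}
    (h : RSL n [x, y] v) : v = [x, y] := by
  obtain ⟨l, rfl⟩ := List.head?_eq_some_iff.mp (h.head (by simp)).symm
  have hadj : ∀ p q, Adj (x :: l) p q → p = x ∧ q = y := by
    intro p q hpq
    obtain ⟨k1, k2, e⟩ := h.symm.adj hpq
    rcases k1 with _ | ⟨c, k1⟩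
    · simp at e
      exact ⟨e.1.symm, e.2.1.symm⟩
    · have := congrArg List.length e
      simp at this
      omega
  rcases l with _ | ⟨b, _ | ⟨c, l⟩⟩
  · have := h.last (by simp)
    simp at this
    exact absurd this.symm hxy
  · rw [(hadj x b ⟨[], [], rfl⟩).2]
  · exfalso
    have e1 := (hadj x b ⟨[], _, rfl⟩).2
    have e2 := (hadj b c ⟨[x], _, rfl⟩).1
    exact hxy (e2.symm.trans e1)

theorem force_D {n : ℕ} {V : Set Semigrp.{0}} (hV : IsVariety V) (hRS : RS n ⊆ V)
    (h1 : ∀ S ∈ V, P1 n S) : (∀ S ∈ V, P2 n S) ∨ Semigrp.of MD ∈ V := by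
  by_contra hcon
  rw [not_or] at hcon
  apply hcon.2
  refine mem_of_holds hV eD eD_gen ?_
  have key : ∀ u v : List (Fin 2), Holds V u v →
      (u = [0] ∨ u = [1] ∨ u = [0, 1] ∨ u = [1, 0] ∨ u = [0, 1, 0]) → v = u := by
    intro u v h hu
    have hr := h.rsl hRS
    rcases hu with rfl | rfl | rfl | rfl | rfl
    · exact single_of_rsl hr
    · exact single_of_rsl hr
    · exact pair_of_rsl (by decide) hr
    · exact pair_of_rsl (by decide) hr
    · obtain ⟨l, rfl⟩ := List.head?_eq_some_iff.mp (hr.head (by simp)).symm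
      obtain ⟨j, hj⟩ := eq_alt _ l rfl (by
        intro p hp
        obtain ⟨k1, k2, e⟩ := hr.symm.adj hp
        rcases k1 with _ | ⟨c, _ | ⟨d, k1⟩⟩
        · simp at e; omega
        · simp at e; omega
        · have := congrArg List.length e
          simp at this
          omega) (hr.last (by simp)).symm
      rw [hj] at h hr ⊢
      rcases j with _ | _ | j
      · exact absurd (single_of_rsl hr.symm) (by decide)
      · rfl
      · exfalso
        apply hcon.1
        have hw := hr.weight ![0, 1]
        rw [alt_weight] at hw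
        have hw' : 1 ≡ j + 1 + 1 [MOD n] := hw
        obtain ⟨c, hc⟩ := (Nat.modEq_iff_dvd' (by omega)).mp hw'
        intro S hS x y
        have e := h S hS ![x, y]
        rw [ev_alt] at e
        simp only [ev_cons, ev_nil, mul_one, Matrix.cons_val_zero, Matrix.cons_val_one] at e
        apply WithOne.coe_injective
        simp only [WithOne.coe_mul, coe_sp]
        have hp := pow_period (h1 S hS).withOne ((x : WithOne S) * y) (j + 1 + 1) 1 (by omega)
        calc (x : WithOne S) * y * x = ((x : WithOne S) * y) ^ (j + 1 + 1) * x := by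
              rw [mul_assoc]; exact e
          _ = ((x : WithOne S) * y) ^ n * (((x : WithOne S) * y) ^ (j + 1 + 1) * x) := by
              rw [← mul_assoc, ← pow_add, ← hp]; congr 2; ring
          _ = ((x : WithOne S) * y) ^ (n + 1) * x := by
              rw [← e, pow_succ]; simp only [mul_assoc]
  intro u v hu hv h
  rcases evD_cases u hu with h0 | h0
  · rcases evD_cases v hv with h0' | h0'
    · rw [h0, h0']
    · rw [key v u h.symm h0']
  · rw [key u v h h0]

/-- Admissible adjacent letters for the ten-element semigroup. -/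
def okW (p q : Fin 3) : Prop := decide (p = 0) ≠ decide (q = 0)

instance : DecidableRel okW := fun p q => inferInstanceAs (Decidable (decide (p = 0) ≠ decide (q = 0)))

/-- The value of a word in the ten-element semigroup. -/
def valW (x : Fin 3) (l : List (Fin 3)) : MW :=
  if List.IsChain okW (x :: l) then
    (if x = 0 then
      (match l with
        | [] => MW.a
        | y :: _ => MW.el true (decide (y = 2)) (decide ((x :: l).getLast? = some 0)))
    else MW.el false (decide (x = 2)) (decide ((x :: l).getLast? = some 0)))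
  else MW.zero

theorem evW (x : Fin 3) (l : List (Fin 3)) : ev eW (x :: l) = (valW x l : MW) := by
  induction l generalizing x with
  | nil => revert x; decide
  | cons y l ih =>
    rw [ev_cons, ih y, ← WithOne.coe_mul]
    congr 1
    rcases l with _ | ⟨z, l⟩
    · revert x y; decide
    · simp only [valW, List.isChain_cons_cons (a := x), List.getLast?_cons_cons]
      generalize decide ((z :: l).getLast? = some 0) = c
      by_cases h : List.IsChain okW (y :: z :: l)
      · simp only [h, if_true, and_true]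
        have h' : okW y z := (List.isChain_cons_cons.mp h).1
        revert h' c
        clear h ih
        revert x y z
        decide
      · simp only [h, if_false, and_false]
        revert x; decide

theorem closure_tail {S : Type*} [Semigroup S] (s t t' : S) :
    ∀ (k : ℕ) (m : List (Fin 3)) (y : Fin 3), m.length = k → y ≠ 0 →
      List.IsChain okW (y :: m) →
      ∃ p ∈ Subsemigroup.closure ({s * t, s * t'} : Set S),
        ev ![s, t, t'] m * (if (y :: m).getLast? = some 0 then ((t * s : S) : WithOne S)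
          else ((s * t * s : S) : WithOne S)) = (p * s : S) := by
  have mα : s * t ∈ Subsemigroup.closure ({s * t, s * t'} : Set S) :=
    Subsemigroup.subset_closure (by simp)
  have mβ : s * t' ∈ Subsemigroup.closure ({s * t, s * t'} : Set S) :=
    Subsemigroup.subset_closure (by simp)
  intro k
  induction k using Nat.strong_induction_on with
  | _ k ih =>
    intro m y hk hy hc
    rcases m with _ | ⟨z, _ | ⟨y', m⟩⟩
    · exact ⟨s * t, mα, by simp [hy]⟩
    · have hz : z = 0 := by
        have := (List.isChain_cons_cons.mp hc).1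
        revert this hy; clear hc ih hk; revert y z; decide
      subst hz
      exact ⟨s * t, mα, by simp [mul_assoc]⟩
    · have hc1 := List.isChain_cons_cons.mp hc
      have hc2 := List.isChain_cons_cons.mp hc1.2
      have hz : z = 0 := by
        have := hc1.1
        revert this hy; clear hc ih hk hc1 hc2; revert y z; decide
      subst hz
      have hy' : y' ≠ 0 := by
        have := hc2.1
        revert this; clear hc ih hk hc1 hc2; revert y'; decide
      obtain ⟨p, hp, e⟩ := ih m.length (by rw [← hk]; simp) m y' rfl hy' hc2.2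
      refine ⟨s * ![s, t, t'] y' * p, Subsemigroup.mul_mem _ ?_ hp, ?_⟩
      · fin_cases y'
        · exact absurd rfl hy'
        · exact mα
        · exact mβ
      · simp only [List.getLast?_cons_cons, ev_cons]
        rw [mul_assoc, mul_assoc, e]
        simp [mul_assoc]

theorem chain_iff_adj {α : Type} (R : α → α → Prop) (l : List α) :
    List.IsChain R l ↔ ∀ p q, Adj l p q → R p q := by
  rw [List.isChain_iff_forall_rel_of_append_cons_cons]
  exact ⟨fun h p q ⟨_, _, e⟩ => h e, fun h _ _ l1 l2 e => h _ _ ⟨l1, l2, e⟩⟩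

theorem core_W {n : ℕ} (u v : List (Fin 3)) (hu : u ≠ []) (h : RSL n u v) :
    ev eW u = ev eW v ∨ ∀ (S : Type) [Semigroup S],
      (∀ f : Fin 3 → S, ev f u = ev f v) → PL S := by
  obtain ⟨x, l, rfl⟩ := List.exists_cons_of_ne_nil hu
  obtain ⟨l', rfl⟩ := List.head?_eq_some_iff.mp (h.head hu).symm
  have hlast := h.last hu
  have hch : List.IsChain okW (x :: l) ↔ List.IsChain okW (x :: l') := by
    rw [chain_iff_adj, chain_iff_adj]
    exact ⟨fun H p q hpq => H p q (h.symm.adj hpq), fun H p q hpq => H p q (h.adj hpq)⟩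
  rw [evW, evW, WithOne.coe_inj]
  by_cases hc : List.IsChain okW (x :: l)
  swap
  · left
    simp only [valW, hc, (hch.not.mp hc), if_false]
  have hc' := hch.mp hc
  by_cases hx : x = 0
  swap
  · left
    simp only [valW, hc, hc', hx, if_true, if_false, hlast]
  subst hx
  rcases l with _ | ⟨y, m⟩
  · left
    rw [List.cons.inj (single_of_rsl h) |>.2]
  rcases l' with _ | ⟨y', m'⟩
  · exact absurd (single_of_rsl h.symm) (by simp)
  by_cases hyy : y = y'
  · left
    subst hyy
    simp only [valW, hc, hc', if_true, hlast]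
  right
  intro S _ hS s t t'
  have hc1 := List.isChain_cons_cons.mp hc
  have hc1' := List.isChain_cons_cons.mp hc'
  have hy : y ≠ 0 := by
    have := hc1.1
    revert this; clear * -; revert y; decide
  have hy' : y' ≠ 0 := by
    have := hc1'.1
    revert this; clear * -; revert y'; decide
  obtain ⟨p, hp, e⟩ := closure_tail s t t' _ m y rfl hy hc1.2
  obtain ⟨q, hq, e'⟩ := closure_tail s t t' _ m' y' rfl hy' hc1'.2
  rw [List.getLast?_cons_cons, List.getLast?_cons_cons] at hlast
  rw [← hlast] at e'
  have e2 := congrArg (· * (if (y :: m).getLast? = some 0 then ((t * s : S) : WithOne S)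
          else ((s * t * s : S) : WithOne S))) (hS ![s, t, t'])
  simp only [ev_cons, mul_assoc] at e2
  simp only [mul_assoc] at e e'
  rw [e, e'] at e2
  simp only [← WithOne.coe_mul, WithOne.coe_inj, ← mul_assoc] at e2
  have hcases : (y = 1 ∧ y' = 2) ∨ (y = 2 ∧ y' = 1) := by
    revert hy hy' hyy; clear * -; revert y y'; decide
  rcases hcases with ⟨rfl, rfl⟩ | ⟨rfl, rfl⟩
  · exact ⟨p, hp, q, hq, e2⟩
  · exact ⟨q, hq, p, hp, e2.symm⟩

theorem force_W {n : ℕ} {V : Set Semigrp.{0}} (hV : IsVariety V) (hRS : RS n ⊆ V) :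
    (∀ S ∈ V, PL S) ∨ Semigrp.of MW ∈ V := by
  by_contra hcon
  rw [not_or] at hcon
  apply hcon.2
  refine mem_of_holds hV eW eW_gen ?_
  intro u v hu _ h
  rcases core_W u v hu (h.rsl hRS) with h' | h'
  · exact h'
  · exact absurd (fun (S : Semigrp.{0}) (hS : S ∈ V) => h' S (h S hS)) hcon.1

/-- The anti-isomorphism on monoids with adjoined identity. -/
def opOne {S : Type*} (x : WithOne S) : WithOne Sᵐᵒᵖ :=
  WithOne.recOneCoe 1 (fun s => ((MulOpposite.op s : Sᵐᵒᵖ) : WithOne Sᵐᵒᵖ)) x

theorem opOne_mul {S : Type*} [Semigroup S] (x y : WithOne S) :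
    opOne (x * y) = opOne y * opOne x := by
  induction x using WithOne.recOneCoe <;> induction y using WithOne.recOneCoe <;>
    simp [opOne, ← WithOne.coe_mul]

theorem opOne_inj {S : Type*} : Function.Injective (opOne (S := S)) := by
  intro x y h
  induction x using WithOne.recOneCoe <;> induction y using WithOne.recOneCoe <;>
    simp_all [opOne]

theorem ev_op {α S : Type*} [Semigroup S] (f : α → S) (l : List α) :
    ev (fun i => MulOpposite.op (f i)) l.reverse = opOne (ev f l) := by
  induction l with
  | nil => rfl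
  | cons x l ih =>
    rw [List.reverse_cons, ev_append, ih, ev_cons, ev_cons, opOne_mul, ev_nil, mul_one]
    rfl

theorem RSL.reverse {n : ℕ} {α : Type} {u v : List α} (h : RSL n u v) :
    RSL n u.reverse v.reverse := by
  intro Q hQ hP f
  have := h (Semigrp.of (Qᵐᵒᵖ)) hQ.op hP.op (fun i => MulOpposite.op (f i))
  apply opOne_inj
  rw [← ev_op, ← ev_op, List.reverse_reverse, List.reverse_reverse]
  exact this

theorem force_W' {n : ℕ} {V : Set Semigrp.{0}} (hV : IsVariety V) (hRS : RS n ⊆ V) :
    (∀ S ∈ V, PL (S : Type)ᵐᵒᵖ) ∨ Semigrp.of MWᵐᵒᵖ ∈ V := by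
  by_contra hcon
  rw [not_or] at hcon
  apply hcon.2
  refine mem_of_holds hV _ eW_gen' ?_
  intro u v hu _ h
  rcases core_W u.reverse v.reverse (by simpa using hu) (h.rsl hRS).reverse with h' | h'
  · rw [← List.reverse_reverse u, ← List.reverse_reverse v, ev_op, ev_op, h']
  · exfalso
    apply hcon.1
    intro S hS
    apply h'
    intro f
    have := h S hS (fun i => (f i).unop)
    have e := congrArg opOne this
    rw [← ev_op, ← ev_op] at e
    exact e

theorem force {n : ℕ} (hn : 1 ≤ n) {V : Set Semigrp.{0}} (hV : IsVariety V) (hRS : RS n ⊂ V) :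
    Semigrp.of MN ∈ V ∨ (∃ p : ℕ, p.Prime ∧ Cyc (p * n) ∈ V) ∨ Semigrp.of MD ∈ V ∨
      Semigrp.of MW ∈ V ∨ Semigrp.of MWᵐᵒᵖ ∈ V := by
  rcases force_N hV hRS.1 with hm | h
  swap
  · exact Or.inl h
  rcases force_Z hn hV hRS.1 hm with h1 | h
  swap
  · exact Or.inr (Or.inl h)
  rcases force_D hV hRS.1 h1 with h2 | h
  swap
  · exact Or.inr (Or.inr (Or.inl h))
  rcases force_W hV hRS.1 with h3 | h
  swap
  · exact Or.inr (Or.inr (Or.inr (Or.inl h)))
  rcases force_W' hV hRS.1 with h4 | h
  swap
  · exact Or.inr (Or.inr (Or.inr (Or.inr h)))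
  exact absurd (fun S hS => mem_RS_of hn (h1 S hS) (h2 S hS) (h3 S hS) (h4 S hS)) hRS.2

end Pool.Agent.MP_634f99_al.H46
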