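import Mathlib
import Pool.Agent.MP_634f99_al.H46.Force

/-! The covers of `RS n`. -/

namespace Pool.Agent.MP_634f99_al.H46

open FreeSemigroup in
/-- Test identity number one. -/
def eA (m : ℕ) : FreeSemigroup ℕ × FreeSemigroup ℕ := (of 0 * of 0, sp (of 0) (m + 1))

open FreeSemigroup in
/-- Test identity number two. -/
def eB (m : ℕ) : FreeSemigroup ℕ × FreeSemigroup ℕ := (of 0 * of 0 * of 0, sp (of 0) (m + 2))

open FreeSemigroup in
/-- Test identity number three. -/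
def eC (m : ℕ) : FreeSemigroup ℕ × FreeSemigroup ℕ :=
  (of 0 * of 1 * of 0, sp (of 0 * of 1) m * of 0)

open FreeSemigroup in
/-- Test identity number four. -/
def eL (m : ℕ) : FreeSemigroup ℕ × FreeSemigroup ℕ :=
  (sp (of 0 * of 1 * of 0 * of 2) m * (of 0 * of 2 * of 0 * of 1 * of 0),
    of 0 * of 2 * of 0 * of 1 * of 0)

open FreeSemigroup in
/-- Test identity number five. -/
def eR (m : ℕ) : FreeSemigroup ℕ × FreeSemigroup ℕ :=
  ((of 0 * of 1 * of 0 * of 2 * of 0) * sp (of 2 * of 0 * of 1 * of 0) m,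
    of 0 * of 1 * of 0 * of 2 * of 0)

/-- Property form of the second test identity. -/
def PB (m : ℕ) (S : Type*) [Semigroup S] : Prop := ∀ x : S, x * x * x = sp x (m + 2)

/-- Property form of the fourth test identity. -/
def QL (m : ℕ) (S : Type*) [Semigroup S] : Prop :=
  ∀ x y w : S, sp (x * y * x * w) m * (x * w * x * y * x) = x * w * x * y * x

/-- Property form of the fifth test identity. -/
def QR (m : ℕ) (S : Type*) [Semigroup S] : Prop :=
  ∀ x y w : S, (x * y * x * w * x) * sp (w * x * y * x) m = x * y * x * w * x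

theorem sat_eA (S : Semigrp.{0}) (m : ℕ) : Sat S (eA m) ↔ P1 m S := by
  simp only [Sat, eA, map_mul, map_sp, FreeSemigroup.lift_of]
  exact ⟨fun h x => h fun _ => x, fun h f => h _⟩

theorem sat_eB (S : Semigrp.{0}) (m : ℕ) : Sat S (eB m) ↔ PB m S := by
  simp only [Sat, eB, map_mul, map_sp, FreeSemigroup.lift_of]
  exact ⟨fun h x => h fun _ => x, fun h f => h _⟩

theorem sat_eC (S : Semigrp.{0}) (m : ℕ) : Sat S (eC m) ↔ P2 m S := by
  simp only [Sat, eC, map_mul, map_sp, FreeSemigroup.lift_of]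
  exact ⟨fun h x y => h fun i => if i = 0 then x else y, fun h f => h _ _⟩

theorem sat_eL (S : Semigrp.{0}) (m : ℕ) : Sat S (eL m) ↔ QL m S := by
  simp only [Sat, eL, map_mul, map_sp, FreeSemigroup.lift_of]
  exact ⟨fun h x y w => h fun i => if i = 0 then x else if i = 1 then y else w,
    fun h f => h _ _ _⟩

theorem sat_eR (S : Semigrp.{0}) (m : ℕ) : Sat S (eR m) ↔ QR m S := by
  simp only [Sat, eR, map_mul, map_sp, FreeSemigroup.lift_of]
  exact ⟨fun h x y w => h fun i => if i = 0 then x else if i = 1 then y else w,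
    fun h f => h _ _ _⟩

section
variable {S : Type*} [Semigroup S]

theorem QR_of_op {m : ℕ} (h : QL m Sᵐᵒᵖ) : QR m S := by
  intro x y w
  have := congrArg MulOpposite.unop
    (h (MulOpposite.op x) (MulOpposite.op y) (MulOpposite.op w))
  simp only [MulOpposite.unop_mul, unop_sp, MulOpposite.unop_op] at this
  simpa only [mul_assoc] using this

theorem QL_op {m : ℕ} (h : QR m S) : QL m Sᵐᵒᵖ := by
  intro x y w
  apply MulOpposite.unop_injective
  simp only [MulOpposite.unop_mul, unop_sp]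
  simpa only [mul_assoc] using h x.unop y.unop w.unop

theorem QR_op {m : ℕ} (h : QR m Sᵐᵒᵖ) : QL m S := by
  intro x y w
  have := congrArg MulOpposite.unop
    (h (MulOpposite.op x) (MulOpposite.op y) (MulOpposite.op w))
  simp only [MulOpposite.unop_mul, unop_sp, MulOpposite.unop_op] at this
  simpa only [mul_assoc] using this

theorem P1.mul {n k : ℕ} (h : P1 n S) (hk : n ∣ k) : P1 k S := by
  obtain ⟨c, rfl⟩ := hk
  rw [P1_iff]
  intro x
  rw [← pow_period h.withOne (x : WithOne S) 2 c le_rfl]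
  congr 1
  ring

theorem P1.PB {k : ℕ} (h : P1 k S) : PB k S := by
  intro x
  rw [h x, ← sp_succ]

theorem PB_of (h : ∀ x : S, x * x * x * x = x * x * x) (k : ℕ) : PB k S := by
  intro x
  induction k with
  | zero => rfl
  | succ k ih => rw [show k + 1 + 2 = (k + 2) + 1 by ring, sp_succ, ← ih, h]

theorem P2_of (h : ∀ x y : S, x * y * (x * y * x) = x * y * x) (k : ℕ) : P2 k S := by
  intro x y
  induction k with
  | zero => rfl
  | succ k ih => rw [sp_succ', mul_assoc (x * y), ← ih, h]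

theorem QL_of (h : ∀ x y w : S, x * y * x * w * (x * w * x * y * x) = x * w * x * y * x)
    (k : ℕ) : QL k S := by
  intro x y w
  induction k with
  | zero => exact h x y w
  | succ k ih => rw [sp_succ', mul_assoc (x * y * x * w), ih, h]

theorem QR_of (h : ∀ x y w : S, x * y * x * w * x * (w * x * y * x) = x * y * x * w * x)
    (k : ℕ) : QR k S := by
  intro x y w
  induction k with
  | zero => exact h x y w
  | succ k ih => rw [sp_succ, ← mul_assoc (x * y * x * w * x), ih, h]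

theorem sp_idem {x : S} (h : x * x = x) (k : ℕ) : sp x k = x := by
  induction k with
  | zero => rfl
  | succ k ih => rw [sp_succ, ih, h]

end

section RSsat
variable {n k : ℕ}

theorem sat_RS {e : FreeSemigroup ℕ × FreeSemigroup ℕ}
    (h : ∀ Q : Semigrp.{0}, ZeroSimple Q → P1 n Q → Sat Q e) : ∀ S ∈ RS n, Sat S e :=
  fun _ hS => hS e fun Q hQ => h Q hQ.1 hQ.2

theorem RS_A (hk : n ∣ k) : ∀ S ∈ RS n, Sat S (eA k) :=
  sat_RS fun Q _ hP => (sat_eA Q k).mpr (hP.mul hk)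

theorem RS_B (hk : n ∣ k) : ∀ S ∈ RS n, Sat S (eB k) :=
  sat_RS fun Q _ hP => (sat_eB Q k).mpr (hP.mul hk).PB

theorem RS_C (hk : n ∣ k) (hk1 : 1 ≤ k) : ∀ S ∈ RS n, Sat S (eC k) :=
  sat_RS fun Q hQ hP => (sat_eC Q k).mpr fun x y => by
    have := hQ.P2 hk1 (hP.mul hk) x y
    obtain ⟨m, rfl⟩ : ∃ m, k = m + 1 := ⟨k - 1, by omega⟩
    rw [sp_succ', mul_assoc (x * y)]
    exact this

theorem RS_L (hk : n ∣ k) (hk1 : 1 ≤ k) : ∀ S ∈ RS n, Sat S (eL (k - 1)) :=
  sat_RS fun Q hQ hP => (sat_eL Q _).mpr (hQ.P3 hk1 (hP.mul hk))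

theorem RS_R (hk : n ∣ k) (hk1 : 1 ≤ k) : ∀ S ∈ RS n, Sat S (eR (k - 1)) :=
  sat_RS fun Q hQ hP => (sat_eR Q _).mpr (QR_of_op (hQ.op.P3 hk1 (hP.mul hk).op))

end RSsat

theorem MN_nA {k : ℕ} (hk : 1 ≤ k) : ¬ P1 k MN := by
  intro h
  obtain ⟨m, rfl⟩ : ∃ m, k = m + 1 := ⟨k - 1, by omega⟩
  have := (h .x).trans (PB_of (S := MN) (by decide) m .x).symm
  revert this; decide

theorem MN_B (k : ℕ) : PB k MN := PB_of (by decide) k
theorem MN_C (k : ℕ) : P2 k MN := P2_of (by decide) k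
theorem MN_L (k : ℕ) : QL k MN := QL_of (by decide) k
theorem MN_R (k : ℕ) : QR k MN := QR_of (by decide) k

theorem MD_A (k : ℕ) : P1 k MD := P1_of_cube (by decide) k
theorem MD_L (k : ℕ) : QL k MD := QL_of (by decide +kernel) k
theorem MD_R (k : ℕ) : QR k MD := QR_of (by decide +kernel) k

theorem MD_nC {k : ℕ} (hk : 1 ≤ k) : ¬ P2 k MD := by
  intro h
  obtain ⟨m, rfl⟩ : ∃ m, k = m + 1 := ⟨k - 1, by omega⟩
  have := (h .x .y).trans (congrArg (· * MD.x) (MD_A m (MD.x * MD.y)).symm)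
  revert this; decide

theorem MW_A (k : ℕ) : P1 k MW := P1_of_cube (by decide) k
theorem MW_C (k : ℕ) : P2 k MW := P2_of (by decide +kernel) k
theorem MW_R (k : ℕ) : QR k MW := QR_of (by decide +kernel) k

theorem MW_nL (k : ℕ) : ¬ QL k MW := by
  intro h
  have := h .a (.el false false false) (.el false true false)
  rw [sp_idem (by decide)] at this
  revert this; decide

theorem Cyc_A (k : ℕ) : P1 k (Multiplicative (ZMod k)) := by
  intro x
  rw [sp_monoid, pow_succ, pow_succ, cyc_pow, one_mul]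

theorem Cyc_C (k : ℕ) : P2 k (Multiplicative (ZMod k)) := by
  intro x y
  rw [sp_monoid, pow_succ, cyc_pow, one_mul]

theorem Cyc_L {k : ℕ} (hk : 1 ≤ k) : QL (k - 1) (Multiplicative (ZMod k)) := by
  intro x y w
  rw [sp_monoid, show k - 1 + 1 = k by omega, cyc_pow, one_mul]

theorem Cyc_R {k : ℕ} (hk : 1 ≤ k) : QR (k - 1) (Multiplicative (ZMod k)) := by
  intro x y w
  rw [sp_monoid, show k - 1 + 1 = k by omega, cyc_pow, mul_one]

theorem Cyc_nB {m k : ℕ} (h : ¬ m ∣ k) : ¬ PB k (Multiplicative (ZMod m)) := by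
  intro hB
  apply h
  have := hB (Multiplicative.ofAdd 1)
  rw [sp_monoid, pow_succ, pow_succ, pow_succ, mul_left_inj, mul_left_inj, right_eq_mul] at this
  have h2 := congrArg Multiplicative.toAdd this
  simp only [toAdd_pow, toAdd_ofAdd, nsmul_eq_mul, mul_one, toAdd_one] at h2
  exact (ZMod.natCast_eq_zero_iff k m).mp h2

theorem excl {n : ℕ} {X Y : Semigrp.{0}} (e : FreeSemigroup ℕ × FreeSemigroup ℕ)
    (hRS : ∀ S ∈ RS n, Sat S e) (hX : Sat X e) (hY : ¬ Sat Y e) : Y ∉ joinRS n X := by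
  intro h
  apply hY
  apply h e
  rintro S (hS | rfl)
  · exact hRS S hS
  · exact hX

theorem joinRS_congr {n : ℕ} {X Y : Semigrp.{0}} (h : ∀ e, Sat X e ↔ Sat Y e) :
    joinRS n X = joinRS n Y := by
  unfold joinRS gen
  congr 1
  ext e
  simp only [Set.mem_ofPred_eq, Set.mem_union, Set.mem_singleton_iff]
  constructor
  · rintro H S (hS | rfl)
    · exact H S (Or.inl hS)
    · exact (h e).mp (H X (Or.inr rfl))
  · rintro H S (hS | rfl)
    · exact H S (Or.inl hS)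
    · exact (h e).mpr (H Y (Or.inr rfl))

theorem RS_subset_join (n : ℕ) (X : Semigrp.{0}) : RS n ⊆ joinRS n X :=
  fun _ hS => subset_gen _ (Or.inl hS)

theorem mem_join (n : ℕ) (X : Semigrp.{0}) : X ∈ joinRS n X := subset_gen _ (Or.inr rfl)

theorem join_subset {n : ℕ} {X : Semigrp.{0}} {V : Set Semigrp.{0}} (hV : IsVariety V)
    (hRS : RS n ⊆ V) (hX : X ∈ V) : joinRS n X ⊆ V :=
  gen_subset hV (by rintro S (hS | rfl); exacts [hRS hS, hX])

/-- `X` is a minimal generator over `RS n`. -/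
def MinGen (n : ℕ) (X : Semigrp.{0}) : Prop :=
  X ∉ RS n ∧ ∀ U, IsVariety U → RS n ⊂ U → U ⊆ joinRS n X → X ∈ U

theorem MinGen.ssubset {n : ℕ} {X : Semigrp.{0}} (h : MinGen n X) : RS n ⊂ joinRS n X :=
  ⟨RS_subset_join n X, fun h' => h.1 (h' (mem_join n X))⟩

theorem MinGen.cover {n : ℕ} {X : Semigrp.{0}} (h : MinGen n X) {L : Set (Set Semigrp.{0})}
    (hL : ∀ V ∈ L, IsVariety V) (hX : joinRS n X ∈ L) : IsCover L (RS n) (joinRS n X) := by
  refine ⟨hX, h.ssubset, ?_⟩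
  rintro ⟨W, hW, h1, h2⟩
  exact h2.2 (join_subset (hL W hW) h1.1 (h.2 W (hL W hW) h1 h2.1))

theorem MinGen.eq_of_cover {n : ℕ} {X : Semigrp.{0}} (h : MinGen n X)
    {L : Set (Set Semigrp.{0})} (hL : ∀ V ∈ L, IsVariety V) (hX : joinRS n X ∈ L)
    {V : Set Semigrp.{0}} (hV : IsCover L (RS n) V) (hXV : X ∈ V) : V = joinRS n X := by
  have hsub := join_subset (hL V hV.1) hV.2.1.1 hXV
  by_contra hne
  exact hV.2.2 ⟨_, hX, h.ssubset, hsub, fun h' => hne (Set.Subset.antisymm h' hsub)⟩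

section Table
variable {n : ℕ}

theorem not_dvd_prime_mul (hn : 1 ≤ n) {p : ℕ} (hp : p.Prime) : ¬ p * n ∣ n := by
  intro h
  have := Nat.le_of_dvd hn h
  have := hp.two_le
  nlinarith

theorem xN {k : ℕ} (hk : n ∣ k) (hk1 : 1 ≤ k) {X : Semigrp.{0}} (h : P1 k X) :
    Semigrp.of MN ∉ joinRS n X :=
  excl (eA k) (RS_A hk) ((sat_eA _ _).mpr h) (fun h' => MN_nA hk1 ((sat_eA _ _).mp h'))

theorem xZ {k m : ℕ} (hk : n ∣ k) (hm : ¬ m ∣ k) {X : Semigrp.{0}} (h : PB k X) :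
    Cyc m ∉ joinRS n X :=
  excl (eB k) (RS_B hk) ((sat_eB _ _).mpr h) (fun h' => Cyc_nB hm ((sat_eB _ _).mp h'))

theorem xD {k : ℕ} (hk : n ∣ k) (hk1 : 1 ≤ k) {X : Semigrp.{0}} (h : P2 k X) :
    Semigrp.of MD ∉ joinRS n X :=
  excl (eC k) (RS_C hk hk1) ((sat_eC _ _).mpr h) (fun h' => MD_nC hk1 ((sat_eC _ _).mp h'))

theorem xL {k : ℕ} (hk : n ∣ k) (hk1 : 1 ≤ k) {X : Semigrp.{0}} (h : QL (k - 1) X) :
    Semigrp.of MW ∉ joinRS n X :=
  excl (eL (k - 1)) (RS_L hk hk1) ((sat_eL _ _).mpr h) (fun h' => MW_nL _ ((sat_eL _ _).mp h'))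

theorem xR {k : ℕ} (hk : n ∣ k) (hk1 : 1 ≤ k) {X : Semigrp.{0}} (h : QR (k - 1) X) :
    Semigrp.of MWᵐᵒᵖ ∉ joinRS n X :=
  excl (eR (k - 1)) (RS_R hk hk1) ((sat_eR _ _).mpr h)
    (fun h' => MW_nL _ (QR_op ((sat_eR _ _).mp h')))

theorem MWop_L (k : ℕ) : QL k MWᵐᵒᵖ := QL_op (MW_R k)

theorem minGen_N (hn : 1 ≤ n) : MinGen n (Semigrp.of MN) := by
  refine ⟨fun h => MN_nA hn ((sat_eA _ _).mp (RS_A dvd_rfl _ h)), ?_⟩
  intro U hU h1 h2
  rcases force hn hU h1 with h | ⟨p, hp, h⟩ | h | h | h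
  · exact h
  · exact absurd (h2 h) (xZ dvd_rfl (not_dvd_prime_mul hn hp) (MN_B n))
  · exact absurd (h2 h) (xD dvd_rfl hn (MN_C n))
  · exact absurd (h2 h) (xL dvd_rfl hn (MN_L _))
  · exact absurd (h2 h) (xR dvd_rfl hn (MN_R _))

theorem minGen_D (hn : 1 ≤ n) : MinGen n (Semigrp.of MD) := by
  refine ⟨fun h => MD_nC hn ((sat_eC _ _).mp (RS_C dvd_rfl hn _ h)), ?_⟩
  intro U hU h1 h2
  rcases force hn hU h1 with h | ⟨p, hp, h⟩ | h | h | h
  · exact absurd (h2 h) (xN dvd_rfl hn (MD_A n))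
  · exact absurd (h2 h) (xZ dvd_rfl (not_dvd_prime_mul hn hp) (MD_A n).PB)
  · exact h
  · exact absurd (h2 h) (xL dvd_rfl hn (MD_L _))
  · exact absurd (h2 h) (xR dvd_rfl hn (MD_R _))

theorem minGen_L (hn : 1 ≤ n) : MinGen n (Semigrp.of MW) := by
  refine ⟨fun h => MW_nL _ ((sat_eL _ _).mp (RS_L dvd_rfl hn _ h)), ?_⟩
  intro U hU h1 h2
  rcases force hn hU h1 with h | ⟨p, hp, h⟩ | h | h | h
  · exact absurd (h2 h) (xN dvd_rfl hn (MW_A n))
  · exact absurd (h2 h) (xZ dvd_rfl (not_dvd_prime_mul hn hp) (MW_A n).PB)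
  · exact absurd (h2 h) (xD dvd_rfl hn (MW_C n))
  · exact h
  · exact absurd (h2 h) (xR dvd_rfl hn (MW_R _))

theorem minGen_R (hn : 1 ≤ n) : MinGen n (Semigrp.of MWᵐᵒᵖ) := by
  refine ⟨fun h => MW_nL _ (QR_op ((sat_eR _ _).mp (RS_R dvd_rfl hn _ h))), ?_⟩
  intro U hU h1 h2
  rcases force hn hU h1 with h | ⟨p, hp, h⟩ | h | h | h
  · exact absurd (h2 h) (xN dvd_rfl hn (MW_A n).op)
  · exact absurd (h2 h) (xZ dvd_rfl (not_dvd_prime_mul hn hp) (MW_A n).op.PB)
  · exact absurd (h2 h) (xD dvd_rfl hn (MW_C n).op)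
  · exact absurd (h2 h) (xL dvd_rfl hn (MWop_L _))
  · exact h

theorem prime_mul_dvd (hn : 1 ≤ n) {p q : ℕ} (hp : p.Prime) (hq : q.Prime)
    (h : q * n ∣ p * n) : q = p :=
  (Nat.prime_dvd_prime_iff_eq hq hp).mp (Nat.dvd_of_mul_dvd_mul_right hn h)

theorem minGen_Z (hn : 1 ≤ n) {p : ℕ} (hp : p.Prime) : MinGen n (Cyc (p * n)) := by
  have hk : n ∣ p * n := Dvd.intro_left p rfl
  have hk1 : 1 ≤ p * n := Nat.mul_pos hp.pos hn
  refine ⟨fun h => Cyc_nB (not_dvd_prime_mul hn hp) ((sat_eB _ _).mp (RS_B dvd_rfl _ h)), ?_⟩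
  intro U hU h1 h2
  rcases force hn hU h1 with h | ⟨q, hq, h⟩ | h | h | h
  · exact absurd (h2 h) (xN hk hk1 (Cyc_A _))
  · by_cases hqp : q * n ∣ p * n
    · rwa [prime_mul_dvd hn hp hq hqp] at h
    · exact absurd (h2 h) (xZ hk hqp (Cyc_A _).PB)
  · exact absurd (h2 h) (xD hk hk1 (Cyc_C _))
  · exact absurd (h2 h) (xL hk hk1 (Cyc_L hk1))
  · exact absurd (h2 h) (xR hk hk1 (Cyc_R hk1))

theorem join_P1 {X : Semigrp.{0}} (h : P1 n X) : ∀ S ∈ joinRS n X, Periodic n S := by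
  intro S hS
  rw [periodic_iff, ← sat_eA]
  apply hS
  rintro T (hT | rfl)
  · exact RS_A dvd_rfl T hT
  · exact (sat_eA _ _).mpr h

theorem covers_all (hn : 1 ≤ n) (V : Set Semigrp.{0}) :
    IsCover {U | IsVariety U} (RS n) V ↔
      (V = joinRS n Dxyx ∨ V = joinRS n Wl ∨ V = joinRS n Wr ∨ V = joinRS n N3 ∨
        ∃ p : ℕ, p.Prime ∧ V = joinRS n (Cyc (p * n))) := by
  rw [joinRS_congr sat_Dxyx, joinRS_congr sat_Wl, joinRS_congr sat_Wr, joinRS_congr sat_N3]
  have hL : ∀ V ∈ {U | IsVariety U}, IsVariety V := fun _ h => h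
  have hj : ∀ X, joinRS n X ∈ {U | IsVariety U} := fun X => gen_isVariety _
  constructor
  · intro hV
    rcases force hn hV.1 hV.2.1 with h | ⟨p, hp, h⟩ | h | h | h
    · exact Or.inr (Or.inr (Or.inr (Or.inl ((minGen_N hn).eq_of_cover hL (hj _) hV h))))
    · exact Or.inr (Or.inr (Or.inr (Or.inr
        ⟨p, hp, (minGen_Z hn hp).eq_of_cover hL (hj _) hV h⟩)))
    · exact Or.inl ((minGen_D hn).eq_of_cover hL (hj _) hV h)
    · exact Or.inr (Or.inl ((minGen_L hn).eq_of_cover hL (hj _) hV h))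
    · exact Or.inr (Or.inr (Or.inl ((minGen_R hn).eq_of_cover hL (hj _) hV h)))
  · rintro (rfl | rfl | rfl | rfl | ⟨p, hp, rfl⟩)
    · exact (minGen_D hn).cover hL (hj _)
    · exact (minGen_L hn).cover hL (hj _)
    · exact (minGen_R hn).cover hL (hj _)
    · exact (minGen_N hn).cover hL (hj _)
    · exact (minGen_Z hn hp).cover hL (hj _)

theorem covers_periodic (hn : 1 ≤ n) (V : Set Semigrp.{0}) :
    IsCover {U | IsVariety U ∧ ∀ S ∈ U, Periodic n S} (RS n) V ↔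
      (V = joinRS n Dxyx ∨ V = joinRS n Wl ∨ V = joinRS n Wr) := by
  rw [joinRS_congr sat_Dxyx, joinRS_congr sat_Wl, joinRS_congr sat_Wr]
  have hL : ∀ V ∈ {U | IsVariety U ∧ ∀ S ∈ U, Periodic n S}, IsVariety V := fun _ h => h.1
  have hj : ∀ X : Semigrp.{0}, P1 n X →
      joinRS n X ∈ {U | IsVariety U ∧ ∀ S ∈ U, Periodic n S} :=
    fun X hX => ⟨gen_isVariety _, join_P1 hX⟩
  constructor
  · intro hV
    rcases force hn hV.1.1 hV.2.1 with h | ⟨p, hp, h⟩ | h | h | h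
    · exact absurd (hV.1.2 _ h) (MN_nA hn)
    · exact absurd (P1.PB (hV.1.2 _ h)) (Cyc_nB (not_dvd_prime_mul hn hp))
    · exact Or.inl ((minGen_D hn).eq_of_cover hL (hj _ (MD_A n)) hV h)
    · exact Or.inr (Or.inl ((minGen_L hn).eq_of_cover hL (hj _ (MW_A n)) hV h))
    · exact Or.inr (Or.inr ((minGen_R hn).eq_of_cover hL (hj _ (MW_A n).op) hV h))
  · rintro (rfl | rfl | rfl)
    · exact (minGen_D hn).cover hL (hj _ (MD_A n))
    · exact (minGen_L hn).cover hL (hj _ (MW_A n))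
    · exact (minGen_R hn).cover hL (hj _ (MW_A n).op)

theorem distinct_three (hn : 1 ≤ n) :
    joinRS n Dxyx ≠ joinRS n Wl ∧ joinRS n Dxyx ≠ joinRS n Wr ∧ joinRS n Wl ≠ joinRS n Wr := by
  rw [joinRS_congr sat_Dxyx, joinRS_congr sat_Wl, joinRS_congr sat_Wr]
  refine ⟨fun h => ?_, fun h => ?_, fun h => ?_⟩
  · exact xD dvd_rfl hn (MW_C n) (h ▸ mem_join n _)
  · exact xD dvd_rfl hn (MW_C n).op (h ▸ mem_join n _)
  · exact xL dvd_rfl hn (MWop_L _) (h ▸ mem_join n _)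

theorem distinct_N (hn : 1 ≤ n) :
    joinRS n N3 ≠ joinRS n Dxyx ∧ joinRS n N3 ≠ joinRS n Wl ∧ joinRS n N3 ≠ joinRS n Wr := by
  rw [joinRS_congr sat_Dxyx, joinRS_congr sat_Wl, joinRS_congr sat_Wr, joinRS_congr sat_N3]
  refine ⟨fun h => ?_, fun h => ?_, fun h => ?_⟩
  · exact xN dvd_rfl hn (MD_A n) (h ▸ mem_join n _)
  · exact xN dvd_rfl hn (MW_A n) (h ▸ mem_join n _)
  · exact xN dvd_rfl hn (MW_A n).op (h ▸ mem_join n _)

theorem distinct_Z (hn : 1 ≤ n) {p : ℕ} (hp : p.Prime) :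
    joinRS n (Cyc (p * n)) ≠ joinRS n Dxyx ∧ joinRS n (Cyc (p * n)) ≠ joinRS n Wl ∧
      joinRS n (Cyc (p * n)) ≠ joinRS n Wr ∧ joinRS n (Cyc (p * n)) ≠ joinRS n N3 := by
  rw [joinRS_congr sat_Dxyx, joinRS_congr sat_Wl, joinRS_congr sat_Wr, joinRS_congr sat_N3]
  have hd := not_dvd_prime_mul hn hp
  refine ⟨fun h => ?_, fun h => ?_, fun h => ?_, fun h => ?_⟩
  · exact xZ dvd_rfl hd (MD_A n).PB (h ▸ mem_join n _)
  · exact xZ dvd_rfl hd (MW_A n).PB (h ▸ mem_join n _)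
  · exact xZ dvd_rfl hd (MW_A n).op.PB (h ▸ mem_join n _)
  · exact xZ dvd_rfl hd (MN_B n) (h ▸ mem_join n _)

theorem distinct_ZZ (hn : 1 ≤ n) {p q : ℕ} (hp : p.Prime) (hq : q.Prime)
    (h : joinRS n (Cyc (p * n)) = joinRS n (Cyc (q * n))) : p = q := by
  by_contra hne
  refine xZ (k := q * n) (m := p * n) (X := Cyc (q * n)) (Dvd.intro_left q rfl)
    (fun hd => hne (prime_mul_dvd hn hq hp hd)) (Cyc_A _).PB (h ▸ mem_join n _)

theorem bij_periodic (hn : 1 ≤ n) :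
    Set.BijOn (fun i : Fin 3 => joinRS n (![Dxyx, Wl, Wr] i)) Set.univ
      {V | IsCover {U | IsVariety U ∧ ∀ S ∈ U, Periodic n S} (RS n) V} := by
  obtain ⟨d1, d2, d3⟩ := distinct_three hn
  refine ⟨?_, ?_, ?_⟩
  · intro i _
    refine (covers_periodic hn _).mpr ?_
    fin_cases i <;> simp
  · intro i _ j _ h
    fin_cases i <;> fin_cases j <;> first
      | rfl
      | exact absurd h (by simpa using d1)
      | exact absurd h (by simpa using d1.symm)
      | exact absurd h (by simpa using d2)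
      | exact absurd h (by simpa using d2.symm)
      | exact absurd h (by simpa using d3)
      | exact absurd h (by simpa using d3.symm)
  · intro V hV
    rcases (covers_periodic hn V).mp hV with rfl | rfl | rfl
    · exact ⟨0, trivial, rfl⟩
    · exact ⟨1, trivial, rfl⟩
    · exact ⟨2, trivial, rfl⟩

theorem bij_all (hn : 1 ≤ n) :
    Set.BijOn (fun i : Fin 4 ⊕ Nat.Primes =>
        joinRS n (Sum.elim ![Dxyx, Wl, Wr, N3] (fun p : Nat.Primes => Cyc (p * n)) i)) Set.univ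
      {V | IsCover {U | IsVariety U} (RS n) V} := by
  obtain ⟨d1, d2, d3⟩ := distinct_three hn
  obtain ⟨d4, d5, d6⟩ := distinct_N hn
  refine ⟨?_, ?_, ?_⟩
  · rintro (i | p) _
    · refine (covers_all hn _).mpr ?_
      fin_cases i <;> simp
    · exact (covers_all hn _).mpr (Or.inr (Or.inr (Or.inr (Or.inr ⟨p, p.2, rfl⟩))))
  · rintro (i | p) _ (j | q) _ h
    · fin_cases i <;> fin_cases j <;> first
        | rfl
        | exact absurd h (by simpa using d1)
        | exact absurd h (by simpa using d1.symm)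
        | exact absurd h (by simpa using d2)
        | exact absurd h (by simpa using d2.symm)
        | exact absurd h (by simpa using d3)
        | exact absurd h (by simpa using d3.symm)
        | exact absurd h (by simpa using d4)
        | exact absurd h (by simpa using d4.symm)
        | exact absurd h (by simpa using d5)
        | exact absurd h (by simpa using d5.symm)
        | exact absurd h (by simpa using d6)
        | exact absurd h (by simpa using d6.symm)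
    · obtain ⟨z1, z2, z3, z4⟩ := distinct_Z hn q.2
      fin_cases i
      · exact absurd h z1.symm
      · exact absurd h z2.symm
      · exact absurd h z3.symm
      · exact absurd h z4.symm
    · obtain ⟨z1, z2, z3, z4⟩ := distinct_Z hn p.2
      fin_cases j
      · exact absurd h z1
      · exact absurd h z2
      · exact absurd h z3
      · exact absurd h z4
    · rw [Subtype.ext (distinct_ZZ hn p.2 q.2 h)]
  · intro V hV
    rcases (covers_all hn V).mp hV with rfl | rfl | rfl | rfl | ⟨p, hp, rfl⟩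
    · exact ⟨Sum.inl 0, trivial, rfl⟩
    · exact ⟨Sum.inl 1, trivial, rfl⟩
    · exact ⟨Sum.inl 2, trivial, rfl⟩
    · exact ⟨Sum.inl 3, trivial, rfl⟩
    · exact ⟨Sum.inr ⟨p, hp⟩, trivial, rfl⟩

end Table

end Pool.Agent.MP_634f99_al.H46
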